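import Pool.Agent.H66.ZK.Stm2

/-! # Project ZK, part MPZ: extension of the base field -/

set_option autoImplicit false
set_option linter.unusedSimpArgs false

open MvPolynomial

namespace Pool.Agent.H66.ZK

section
variable {k : Type} [Field k] [CharZero k]

theorem mpz_ev {n : ℕ} {E : Type} [Field E] (τ : k →+* E) (g : Fin n → MvPolynomial (Fin 2) k)
    (f : MvPolynomial (Fin n) k) (z : Fin 2 → E) :
    eval₂ τ z (bind₁ g f) = eval (fun i => eval₂ τ z (g i)) (map τ f) := by
  rw [eval_map]
  have h := eval₂Hom_bind₁ τ z g f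
  exact h

/-- an identity of binary forms over `k` holds over the algebraic closure -/
theorem mpz_id (f : MvPolynomial (Fin 5) k) (g : Fin 5 → MvPolynomial (Fin 2) k)
    (G : MvPolynomial (Fin 2) k) (h : ∀ z : Fin 2 → k, eval (fun i => eval z (g i)) f = eval z G)
    (z : Fin 2 → AlgebraicClosure k) :
    eval (fun i => eval₂ (algebraMap k _) z (g i)) (barF f) = eval₂ (algebraMap k _) z G := by
  have : Infinite k := CharZero.infinite k
  have h1 : bind₁ g f = G := by
    apply MvPolynomial.funext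
    intro z
    rw [← h z]
    have h2 := mpz_ev (RingHom.id k) g f z
    rw [map_id] at h2
    exact h2
  rw [barF, ← mpz_ev, h1]

theorem mpz_li {e g : Fin 3 → k} (h : LinearIndependent k ![e, g]) :
    LinearIndependent (AlgebraicClosure k) ![fun i => algebraMap k (AlgebraicClosure k) (e i),
      fun i => algebraMap k (AlgebraicClosure k) (g i)] := by
  rw [LinearIndependent.pair_iff] at h ⊢
  intro s t hst
  by_contra hne
  set τ := algebraMap k (AlgebraicClosure k) with hτ
  have h1 : ∀ i, s * τ (e i) + t * τ (g i) = 0 := fun i => congrFun hst i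
  have h2 : ∀ i j, e i * g j = e j * g i := by
    intro i j
    apply τ.injective
    rw [map_mul, map_mul, ← sub_eq_zero]
    by_cases hs : s = 0
    · have ht : t ≠ 0 := fun ht => hne ⟨hs, ht⟩
      apply (mul_eq_zero.1 (?_ : t * (τ (e i) * τ (g j) - τ (e j) * τ (g i)) = 0)).resolve_left ht
      linear_combination τ (e i) * h1 j - τ (e j) * h1 i
    · apply (mul_eq_zero.1 (?_ : s * (τ (e i) * τ (g j) - τ (e j) * τ (g i)) = 0)).resolve_left hs
      linear_combination τ (g j) * h1 i - τ (g i) * h1 j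
  by_cases he : e = 0
  · have := (h 1 0 (by rw [he]; simp)).1
    exact one_ne_zero this
  · obtain ⟨i, hi⟩ := Function.ne_iff.1 he
    have h3 := (h (g i) (-(e i)) (by
      funext j
      show g i * e j + -(e i) * g j = 0
      rw [neg_mul, h2 i j]
      ring)).2
    rw [neg_eq_zero] at h3
    exact hi h3

theorem mpz_sec (f : MvPolynomial (Fin 5) k) (p : Fin 3 → Fin 5 → k)
    (h : Section₁ f p ∨ Section₂ f p) :
    Section₁ (barF f) (fun i => bar (p i)) ∨ Section₂ (barF f) (fun i => bar (p i)) := by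
  set τ := algebraMap k (AlgebraicClosure k) with hτ
  rcases h with ⟨y₀, y₁, e, g, a, b, c, h1, h2, h3, h4, h5, h6⟩ |
    ⟨y₀, y₁, e, g, a, b, c, h1, h2, h3, h4, h5, h6⟩
  · left
    refine ⟨τ y₀, τ y₁, fun i => τ (e i), fun i => τ (g i), fun i => τ (a i), fun i => τ (b i), τ c,
      h1.imp (map_ne_zero τ).2 (map_ne_zero τ).2, mpz_li h2, (map_ne_zero τ).2 h3,
      fun i => (h4 i).imp (map_ne_zero τ).2 (map_ne_zero τ).2, fun i => ?_, fun l m => ?_⟩
    · funext j
      show τ (p i j) = _
      rw [h5 i]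
      fin_cases j <;> simp
    · have h7 := mpz_id f ![C (e 0) * X 0 + C (g 0) * X 1, C (e 1) * X 0 + C (g 1) * X 1,
        C (e 2) * X 0 + C (g 2) * X 1, C y₀, C y₁]
        (C c * ((C (b 0) * X 0 - C (a 0) * X 1) * (C (b 1) * X 0 - C (a 1) * X 1) *
          (C (b 2) * X 0 - C (a 2) * X 1))) (fun z => by
          have h8 := h6 (z 0) (z 1)
          have e1 : (fun i => eval z ((![C (e 0) * X 0 + C (g 0) * X 1,
              C (e 1) * X 0 + C (g 1) * X 1, C (e 2) * X 0 + C (g 2) * X 1, C y₀, C y₁] :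
              Fin 5 → MvPolynomial (Fin 2) k) i)) =
              ![z 0 * e 0 + z 1 * g 0, z 0 * e 1 + z 1 * g 1, z 0 * e 2 + z 1 * g 2, y₀, y₁] := by
            funext i
            fin_cases i <;> simp <;> ring
          rw [e1, h8]
          simp) ![l, m]
      have e2 : (fun i => eval₂ τ ![l, m] ((![C (e 0) * X 0 + C (g 0) * X 1,
          C (e 1) * X 0 + C (g 1) * X 1, C (e 2) * X 0 + C (g 2) * X 1, C y₀, C y₁] :
          Fin 5 → MvPolynomial (Fin 2) k) i)) =
          ![l * τ (e 0) + m * τ (g 0), l * τ (e 1) + m * τ (g 1), l * τ (e 2) + m * τ (g 2),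
            τ y₀, τ y₁] := by
        funext i
        fin_cases i <;> simp <;> ring
      rw [e2] at h7
      rw [h7]
      simp [hτ]
  · right
    refine ⟨τ y₀, τ y₁, fun i => τ (e i), fun i => τ (g i), fun i => τ (a i), fun i => τ (b i), τ c,
      h1.imp (map_ne_zero τ).2 (map_ne_zero τ).2, mpz_li h2, (map_ne_zero τ).2 h3,
      fun i => (h4 i).imp (map_ne_zero τ).2 (map_ne_zero τ).2, fun i => ?_, fun l m => ?_⟩
    · funext j
      show τ (p i j) = _
      rw [h5 i]
      fin_cases j <;> simp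
    · have h7 := mpz_id f ![C (e 0) * X 0 + C (g 0) * X 1, C y₀, C y₁,
        C (e 1) * X 0 + C (g 1) * X 1, C (e 2) * X 0 + C (g 2) * X 1]
        (C c * ((C (b 0) * X 0 - C (a 0) * X 1) * (C (b 1) * X 0 - C (a 1) * X 1) *
          (C (b 2) * X 0 - C (a 2) * X 1))) (fun z => by
          have h8 := h6 (z 0) (z 1)
          have e1 : (fun i => eval z ((![C (e 0) * X 0 + C (g 0) * X 1, C y₀, C y₁,
              C (e 1) * X 0 + C (g 1) * X 1, C (e 2) * X 0 + C (g 2) * X 1] :
              Fin 5 → MvPolynomial (Fin 2) k) i)) =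
              ![z 0 * e 0 + z 1 * g 0, y₀, y₁, z 0 * e 1 + z 1 * g 1, z 0 * e 2 + z 1 * g 2] := by
            funext i
            fin_cases i <;> simp <;> ring
          rw [e1, h8]
          simp) ![l, m]
      have e2 : (fun i => eval₂ τ ![l, m] ((![C (e 0) * X 0 + C (g 0) * X 1, C y₀, C y₁,
          C (e 1) * X 0 + C (g 1) * X 1, C (e 2) * X 0 + C (g 2) * X 1] :
          Fin 5 → MvPolynomial (Fin 2) k) i)) =
          ![l * τ (e 0) + m * τ (g 0), τ y₀, τ y₁, l * τ (e 1) + m * τ (g 1),
            l * τ (e 2) + m * τ (g 2)] := by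
        funext i
        fin_cases i <;> simp <;> ring
      rw [e2] at h7
      rw [h7]
      simp [hτ]

theorem bar_scale (l m : k) (p : Fin 5 → k) :
    bar (scale l m p) = scale (algebraMap k _ l) (algebraMap k _ m) (bar p) := by
  funext j
  fin_cases j <;> simp [bar, scale]

theorem map_pt' (p : Fin 5 → k) : (pt p).mapDomain bar = pt (bar p) := by
  simp [pt, Finsupp.mapDomain_single]

end

theorem mpz : S_MPZ := by
  intro k _ _ f
  have hL : ∀ h, LineSection f h → LineSection (barF f) (h.mapDomain bar) := by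
    rintro h ⟨p, hp, rfl⟩
    refine ⟨fun i => bar (p i), mpz_sec f p hp, ?_⟩
    rw [Finsupp.mapDomain_add, Finsupp.mapDomain_add, map_pt', map_pt', map_pt']
  refine ⟨?_, hL⟩
  have h1 : Rat f ≤ (Rat (barF f)).comap (Finsupp.mapDomain.addMonoidHom bar) := by
    rw [Rat, AddSubgroup.closure_le]
    rintro z (⟨p, l, m, hl, hm, rfl⟩ | ⟨z₁, z₂, h1, h2, rfl⟩)
    · show (pt (scale l m p) - pt p).mapDomain bar ∈ Rat (barF f)
      have e1 : (pt (scale l m p) - pt p).mapDomain bar =
          (pt (scale l m p)).mapDomain bar - (pt p).mapDomain bar :=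
        map_sub (Finsupp.mapDomain.addMonoidHom bar) _ _
      rw [e1, map_pt', map_pt', bar_scale]
      exact AddSubgroup.subset_closure (Or.inl ⟨bar p, _, _,
        (map_ne_zero (algebraMap k (AlgebraicClosure k))).2 hl,
        (map_ne_zero (algebraMap k (AlgebraicClosure k))).2 hm, rfl⟩)
    · show (z₁ - z₂).mapDomain bar ∈ Rat (barF f)
      have e1 : (z₁ - z₂).mapDomain bar = z₁.mapDomain bar - z₂.mapDomain bar :=
        map_sub (Finsupp.mapDomain.addMonoidHom bar) _ _
      rw [e1]
      exact AddSubgroup.subset_closure (Or.inr ⟨_, _, hL _ h1, hL _ h2, rfl⟩)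
  exact fun z hz => h1 hz

end Pool.Agent.H66.ZK
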