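import Pool.Agent.H66.ZK.Cyd
import Pool.Agent.H66.ZK.Mpz

/-!
# Project ZK: central points (helper66)
-/

set_option autoImplicit false
set_option linter.unusedSimpArgs false
set_option linter.unusedSectionVars false

open MvPolynomial

namespace Pool.Agent.H66.ZK

section derivatives

open Pool.Agent.H66.TK

variable {K : Type} [Field K] (a : Fin 3 → Fin 3 → K) (b : Fin 4 → Fin 4 → K)
  (w : AlgebraicClosure K) (x y : Fin 2 → AlgebraicClosure K)

theorem aeval_F (p : Fin 5 → AlgebraicClosure K) : aeval p (F a b) =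
    FF (ex (algebraMap K _) a) (ex (algebraMap K _) b) (p 0) ![p 1, p 2] ![p 3, p 4] := by
  rw [F_eq]
  exact eval₂_eqn (algebraMap K (AlgebraicClosure K)) a b p

theorem der0 : aeval ![w, x 0, x 1, y 0, y 1] (pderiv 0 (F a b)) =
    Fw (ex (algebraMap K _) a) w x y := by
  rw [F_eq]
  simp [eqn, FF, Fw, cw, cub, ax, bx, q2, q3, ex, pderiv_X]

theorem der1 : aeval ![w, x 0, x 1, y 0, y 1] (pderiv 1 (F a b)) =
    c0 (ax (ex (algebraMap K _) a) y) (bx (ex (algebraMap K _) b) y) w x := by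
  rw [F_eq]
  simp [eqn, FF, cub, c0, ax, bx, q2, q3, ex, pderiv_X]
  ring

theorem der2 : aeval ![w, x 0, x 1, y 0, y 1] (pderiv 2 (F a b)) =
    c1 (ax (ex (algebraMap K _) a) y) (bx (ex (algebraMap K _) b) y) w x := by
  rw [F_eq]
  simp [eqn, FF, cub, c1, ax, bx, q2, q3, ex, pderiv_X]
  ring

theorem der3 : aeval ![w, x 0, x 1, y 0, y 1] (pderiv 3 (F a b)) =
    c0 (ax (tr (ex (algebraMap K _) a)) x) (bx (tr (ex (algebraMap K _) b)) x) w y := by
  rw [F_eq]
  simp [eqn, FF, cub, c0, ax, bx, q2, q3, ex, tr, pderiv_X]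
  ring

theorem der4 : aeval ![w, x 0, x 1, y 0, y 1] (pderiv 4 (F a b)) =
    c1 (ax (tr (ex (algebraMap K _) a)) x) (bx (tr (ex (algebraMap K _) b)) x) w y := by
  rw [F_eq]
  simp [eqn, FF, cub, c1, ax, bx, q2, q3, ex, tr, pderiv_X]
  ring

theorem ne_vec {x : Fin 2 → AlgebraicClosure K} (hx : x ≠ 0) : x 0 ≠ 0 ∨ x 1 ≠ 0 := by
  by_contra h
  push Not at h
  apply hx
  funext i
  fin_cases i
  · exact h.1
  · exact h.2

variable {a b}

theorem good (h : Admissible a b) : Good a b := by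
  refine ⟨?_, ?_, ?_⟩
  · intro w x y hx hy h0 h1 h2 h3 h4 h5
    obtain ⟨i, hi⟩ := h.smooth ![w, x 0, x 1, y 0, y 1] ⟨ne_vec hx, ne_vec hy⟩ (by
      rw [aeval_F]
      show FF _ _ w ![x 0, x 1] ![y 0, y 1] = 0
      rw [vec2, vec2]
      exact h0)
    fin_cases i
    · exact hi ((der0 a b w x y).trans h1)
    · exact hi ((der1 a b w x y).trans h2)
    · exact hi ((der2 a b w x y).trans h3)
    · exact hi ((der3 a b w x y).trans h4)
    · exact hi ((der4 a b w x y).trans h5)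
  · intro y hy l m
    obtain ⟨x₀, x₁, h1⟩ := h.cubics₁ (y 0) (y 1) l m (ne_vec hy)
    refine ⟨![x₀, x₁], ?_⟩
    rw [aeval_F] at h1
    rw [← vec2 y]
    exact h1
  · intro x hx l m
    obtain ⟨y₀, y₁, h1⟩ := h.cubics₂ (x 0) (x 1) l m (ne_vec hx)
    refine ⟨![y₀, y₁], ?_⟩
    rw [aeval_F] at h1
    rw [← vec2 x]
    have e := FF_tr (ex (algebraMap K (AlgebraicClosure K)) a) (ex (algebraMap K _) b)
      (l * y₀ + m * y₁) ![x 0, x 1] ![y₀, y₁]
    show FF (tr (ex (algebraMap K (AlgebraicClosure K)) a)) (tr (ex (algebraMap K _) b))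
      (l * y₀ + m * y₁) ![y₀, y₁] ![x 0, x 1] ≠ 0
    rw [e]
    exact h1

theorem barF_eq : barF (F a b) = F (ex (algebraMap K (AlgebraicClosure K)) a)
    (ex (algebraMap K (AlgebraicClosure K)) b) := by
  simp [barF, F, ex, Fin.sum_univ_succ]

end derivatives

section central

open Pool.Agent.H66.TK

variable {K : Type} [Field K] [CharZero K] {f : MvPolynomial (Fin 5) K}

theorem pt_bar (Q : Fin 5 → K) : (pt Q).mapDomain bar = pt (bar Q) := map_pt' Q

theorem central_iff {Q : Fin 5 → K} : Q ∈ Central f ↔ IsPoint Q ∧ eval Q f = 0 ∧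
    ∃ (N : ℕ) (h : (Fin 5 → AlgebraicClosure K) →₀ ℤ), N ≠ 0 ∧ LineSection (barF f) h ∧
      N • ((3 : ℤ) • mk (barF f) (pt (bar Q)) - mk (barF f) h) = 0 := by
  unfold Central
  simp only [Set.mem_ofPred_eq, ← mk_eq_zero, mk_nsmul, mk_sub]
  have : ∀ z : CG (barF f), (3 : ℕ) • z = (3 : ℤ) • z := fun z => by
    rw [← natCast_zsmul]
    rfl
  simp only [this]

/-- central points are equivalent -/
theorem equiv_of_central {Q Q' : Fin 5 → K} (hQ : Q ∈ Central f) (hQ' : Q' ∈ Central f) :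
    Equivalent f Q Q' := by
  obtain ⟨-, -, N, h, hN, hh, h1⟩ := central_iff.1 hQ
  obtain ⟨-, -, N', h', hN', hh', h1'⟩ := central_iff.1 hQ'
  rw [mk_sec hh' hh] at h1'
  refine ⟨3 * (N * N'), by positivity, ?_⟩
  rw [← mk_eq_zero, mk_nsmul, mk_sub]
  obtain ⟨A, hA⟩ : ∃ A, A = mk (barF f) (pt (bar Q)) := ⟨_, rfl⟩
  obtain ⟨B, hB⟩ : ∃ B, B = mk (barF f) (pt (bar Q')) := ⟨_, rfl⟩
  obtain ⟨H, hH⟩ : ∃ H, H = mk (barF f) h := ⟨_, rfl⟩
  rw [← hA, ← hH] at h1
  rw [← hB, ← hH] at h1'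
  rw [← hA, ← hB]
  have e1 : (3 * (N * N')) • (A - B) =
      N' • (N • ((3 : ℤ) • A - H)) - N • (N' • ((3 : ℤ) • B - H)) := by
    simp only [← natCast_zsmul]
    push_cast
    module
  rw [e1, h1, h1', smul_zero, smul_zero, sub_zero]

/-- the points of `Multiples f P` are central if `P` is -/
theorem central_mul {P Q : Fin 5 → K} (hP : P ∈ Central f) (hQ : Q ∈ Multiples f P) :
    Q ∈ Central f := by
  obtain ⟨-, -, N, h, hN, hh, h1⟩ := central_iff.1 hP
  obtain ⟨k1, k2, m, h', hh', h3⟩ := hQ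
  have h4 := (mpz K f).1 _ h3
  have h5 := (mpz K f).2 _ hh'
  have e1 : (pt Q - ((3 * m + 1) • pt P - m • h')).mapDomain bar =
      pt (bar Q) - ((3 * m + 1) • pt (bar P) - m • (h'.mapDomain bar)) := by
    have e2 := map_sub (Finsupp.mapDomain.addMonoidHom (M := ℤ) (bar : (Fin 5 → K) → _)) (pt Q)
      ((3 * m + 1) • pt P - m • h')
    have e3 := map_sub (Finsupp.mapDomain.addMonoidHom (M := ℤ) (bar : (Fin 5 → K) → _))
      ((3 * m + 1) • pt P) (m • h')
    rw [map_zsmul, map_zsmul] at e3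
    rw [e3] at e2
    have e4 : (Finsupp.mapDomain.addMonoidHom (M := ℤ) (bar : (Fin 5 → K) → _)) (pt P) =
      pt (bar P) := pt_bar P
    have e5 : (Finsupp.mapDomain.addMonoidHom (M := ℤ) (bar : (Fin 5 → K) → _)) (pt Q) =
      pt (bar Q) := pt_bar Q
    rw [e4, e5] at e2
    exact e2
  rw [e1, ← mk_eq, mk_sub, mk_zsmul, mk_zsmul, mk_sec h5 hh] at h4
  refine central_iff.2 ⟨k1, k2, N, h, hN, hh, ?_⟩
  rw [h4]
  obtain ⟨A, hA⟩ : ∃ A, A = mk (barF f) (pt (bar P)) := ⟨_, rfl⟩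
  obtain ⟨H, hH⟩ : ∃ H, H = mk (barF f) h := ⟨_, rfl⟩
  rw [← hA, ← hH] at h1 ⊢
  have e2 : N • ((3 : ℤ) • ((3 * m + 1) • A - m • H) - H) =
      (3 * m + 1) • (N • ((3 : ℤ) • A - H)) := by
    simp only [← natCast_zsmul]
    module
  rw [e2, h1, smul_zero]

/-- flexes are central -/
theorem central_flex {Q : Fin 5 → K} (h1 : IsPoint Q) (h2 : eval Q f = 0)
    (h3 : LineSection f (3 • pt Q)) : Q ∈ Central f := by
  refine ⟨h1, h2, 1, 3 • pt (bar Q), one_ne_zero, ?_, ?_⟩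
  · have h5 := (mpz K f).2 _ h3
    have e1 : (3 • pt Q).mapDomain bar = 3 • pt (bar Q) := by
      have e2 := map_nsmul (Finsupp.mapDomain.addMonoidHom (M := ℤ) (bar : (Fin 5 → K) → _)) 3 (pt Q)
      have e4 : (Finsupp.mapDomain.addMonoidHom (M := ℤ) (bar : (Fin 5 → K) → _)) (pt Q) =
        pt (bar Q) := pt_bar Q
      rw [e4] at e2
      exact e2
    rw [e1] at h5
    exact h5
  · rw [sub_self, smul_zero]
    exact zero_mem _

end central

section nodes

open Pool.Agent.H66.TK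

/-- the fibres of the projection are sections -/
theorem sec_fib {E : Type} [Field E] [IsAlgClosed E] [CharZero E] (α : Fin 3 → E) (β : Fin 4 → E)
    {x : Fin 2 → E} (hx : x ≠ 0) : ∃ v, Sec α β v := by
  obtain ⟨A, hA⟩ : ∃ A, A = q2 α x := ⟨_, rfl⟩
  obtain ⟨B, hB⟩ : ∃ B, B = q3 β x := ⟨_, rfl⟩
  obtain ⟨r, hr⟩ : ∃ r : E, r ^ 3 + A * r + B = 0 := by
    obtain ⟨r, hr⟩ := IsAlgClosed.exists_root
      (Polynomial.X ^ 3 + Polynomial.C A * Polynomial.X + Polynomial.C B : Polynomial E) (by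
        have : (Polynomial.X ^ 3 + Polynomial.C A * Polynomial.X + Polynomial.C B :
          Polynomial E).degree = 3 := by compute_degree!
        rw [this]
        norm_num)
    refine ⟨r, ?_⟩
    rw [Polynomial.IsRoot.def] at hr
    simpa using hr
  obtain ⟨s, hs⟩ : ∃ s : E, s ^ 2 = r ^ 2 - 4 * (r ^ 2 + A) :=
    IsAlgClosed.exists_pow_nat_eq _ (by norm_num)
  have hli : LinearIndependent E ![(![1, 0, 0] : Fin 3 → E), ![0, x 0, x 1]] := by
    rw [LinearIndependent.pair_iff]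
    intro l m h
    have h0 : l * 1 + m * 0 = 0 := congrFun h 0
    have h1 : l * 0 + m * x 0 = 0 := congrFun h 1
    have h2 : l * 0 + m * x 1 = 0 := congrFun h 2
    rw [mul_one, mul_zero, add_zero] at h0
    rw [mul_zero, zero_add] at h1 h2
    refine ⟨h0, ?_⟩
    by_contra hm
    apply hx
    funext i
    fin_cases i
    · exact (mul_eq_zero.1 h1).resolve_left hm
    · exact (mul_eq_zero.1 h2).resolve_left hm
  refine ⟨_, ![1, 0, 0], ![0, x 0, x 1], ![r, (-r + s) / 2, (-r - s) / 2], ![1, 1, 1], 1, hli,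
    one_ne_zero, fun i => ?_, fun i j => rfl, fun l m => ?_⟩
  · right
    fin_cases i <;> simp
  · have e1 : cub α β (l * 1 + m * 0) ![l * 0 + m * x 0, l * 0 + m * x 1] =
        l ^ 3 + A * l * m ^ 2 + B * m ^ 3 := by
      rw [hA, hB]
      simp only [cub, q2, q3]
      simp
      ring
    have e2 : l * (![1, 0, 0] : Fin 3 → E) 0 + m * (![0, x 0, x 1] : Fin 3 → E) 0 =
      l * 1 + m * 0 := rfl
    have e3 : (![l * (![1, 0, 0] : Fin 3 → E) 1 + m * (![0, x 0, x 1] : Fin 3 → E) 1,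
      l * (![1, 0, 0] : Fin 3 → E) 2 + m * (![0, x 0, x 1] : Fin 3 → E) 2] : Fin 2 → E) =
      ![l * 0 + m * x 0, l * 0 + m * x 1] := rfl
    rw [e2, e3, e1]
    simp only [Matrix.cons_val_zero, Matrix.cons_val_one, Matrix.cons_val]
    linear_combination (m ^ 3) * hr + (l - r * m) * m ^ 2 / 4 * hs

variable {K : Type} [Field K] [CharZero K] {a : Fin 3 → Fin 3 → K} {b : Fin 4 → Fin 4 → K}

theorem exists_secb : ∃ h, LineSection (barF (F a b)) h := by
  have hv : (![1, 0] : Fin 2 → AlgebraicClosure K) ≠ 0 := fun h => one_ne_zero (congrFun h 0)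
  obtain ⟨v, hv'⟩ := sec_fib (ax (chA false false (ex (algebraMap K (AlgebraicClosure K)) a)) ![1, 0])
    (bx (chA false false (ex (algebraMap K (AlgebraicClosure K)) b)) ![1, 0]) hv
  rw [barF_eq]
  exact ⟨_, sec_x false false hv hv'⟩

/-- the points on the singular cubics are central -/
theorem central_sing₁ (hn : S_NOD) (h : Good a b) {Q : Fin 5 → K} (h1 : IsPoint Q)
    (h2 : eval Q (F a b) = 0) {p : Fin 5 → AlgebraicClosure K} (hp : Singular₁ (F a b) p)
    (h3 : p 3 = bar Q 3) (h4 : p 4 = bar Q 4) : Q ∈ Central (F a b) := by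
  obtain ⟨k1, k2, k3, k4, k5⟩ := hp
  obtain ⟨H, hH⟩ := exists_secb (a := a) (b := b)
  refine ⟨h1, h2, 1, H, one_ne_zero, hH, ?_⟩
  rw [← mk_eq_zero, one_smul, mk_sub, mk_nsmul]
  obtain ⟨x₀, hx₀⟩ : ∃ x : Fin 2 → AlgebraicClosure K, x = ![p 1, p 2] := ⟨_, rfl⟩
  obtain ⟨y, hy⟩ : ∃ x : Fin 2 → AlgebraicClosure K, x = ![p 3, p 4] := ⟨_, rfl⟩
  have hpe : p = ![p 0, x₀ 0, x₀ 1, y 0, y 1] := by
    rw [hx₀, hy]
    funext i
    fin_cases i <;> rfl
  have hx0 : x₀ ≠ 0 := by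
    intro h
    rw [hx₀] at h
    rcases k1.1 with h' | h'
    · exact h' (congrFun h 0)
    · exact h' (congrFun h 1)
  have hy0 : y ≠ 0 := by
    intro h
    rw [hy] at h
    rcases k1.2 with h' | h'
    · exact h' (congrFun h 0)
    · exact h' (congrFun h 1)
  rw [hpe, der0] at k3
  rw [hpe, der1] at k4
  rw [hpe, der2] at k5
  rw [aeval_F, ← hx₀, ← hy] at k2
  rw [barF_eq] at hH ⊢
  have hc := cls_x false false hy0 hH
  have hQy : y = ![bar Q 3, bar Q 4] := by rw [hy, h3, h4]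
  have key := hn (AlgebraicClosure K) (ax (ex (algebraMap K _) a) y) (bx (ex (algebraMap K _) b) y)
    (h.line₁ y hy0) (p 0) x₀ hx0 k2 k3 k4 k5 _ _ _ hc (bar Q 0) ![bar Q 1, bar Q 2]
    (fun h => by
      rcases h1.1 with h' | h'
      · exact h' ((map_eq_zero (algebraMap K (AlgebraicClosure K))).1 (congrFun h 0))
      · exact h' ((map_eq_zero (algebraMap K (AlgebraicClosure K))).1 (congrFun h 1)))
    (by
      have e1 := aeval_F a b (bar Q)
      have e2 : aeval (bar Q) (F a b) = 0 := by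
        have e3 := aeval_algebraMap_apply (AlgebraicClosure K) Q (F a b)
        have e4 : (algebraMap K (AlgebraicClosure K)) ∘ Q = bar Q := rfl
        rw [e4, MvPolynomial.aeval_eq_eval] at e3
        rw [e3]
        show algebraMap K (AlgebraicClosure K) (eval Q (F a b)) = 0
        rw [h2, map_zero]
      rw [e2] at e1
      rw [hQy]
      exact e1.symm)
  have e5 : kx (F (ex (algebraMap K (AlgebraicClosure K)) a) (ex (algebraMap K (AlgebraicClosure K)) b))
      false false y ![bar Q 0, ![bar Q 1, bar Q 2] 0, ![bar Q 1, bar Q 2] 1] =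
      mk (F (ex (algebraMap K (AlgebraicClosure K)) a) (ex (algebraMap K (AlgebraicClosure K)) b))
        (pt (bar Q)) := by
    rw [hQy]
    unfold kx p5
    congr 2
    funext i
    fin_cases i <;> rfl
  rw [e5] at key
  rw [← natCast_zsmul]
  rw [sub_eq_zero]
  exact key

/-- the points on the singular cubics are central -/
theorem central_sing₂ (hn : S_NOD) (h : Good a b) {Q : Fin 5 → K} (h1 : IsPoint Q)
    (h2 : eval Q (F a b) = 0) {p : Fin 5 → AlgebraicClosure K} (hp : Singular₂ (F a b) p)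
    (h3 : p 1 = bar Q 1) (h4 : p 2 = bar Q 2) : Q ∈ Central (F a b) := by
  obtain ⟨k1, k2, k3, k4, k5⟩ := hp
  obtain ⟨H, hH⟩ := exists_secb (a := a) (b := b)
  refine ⟨h1, h2, 1, H, one_ne_zero, hH, ?_⟩
  rw [← mk_eq_zero, one_smul, mk_sub, mk_nsmul]
  obtain ⟨x, hx⟩ : ∃ x : Fin 2 → AlgebraicClosure K, x = ![p 1, p 2] := ⟨_, rfl⟩
  obtain ⟨y₀, hy₀⟩ : ∃ x : Fin 2 → AlgebraicClosure K, x = ![p 3, p 4] := ⟨_, rfl⟩
  have hpe : p = ![p 0, x 0, x 1, y₀ 0, y₀ 1] := by
    rw [hx, hy₀]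
    funext i
    fin_cases i <;> rfl
  have hx0 : x ≠ 0 := by
    intro h
    rw [hx] at h
    rcases k1.1 with h' | h'
    · exact h' (congrFun h 0)
    · exact h' (congrFun h 1)
  have hy0 : y₀ ≠ 0 := by
    intro h
    rw [hy₀] at h
    rcases k1.2 with h' | h'
    · exact h' (congrFun h 0)
    · exact h' (congrFun h 1)
  rw [hpe, der0] at k3
  rw [hpe, der3] at k4
  rw [hpe, der4] at k5
  rw [aeval_F, ← hx, ← hy₀, ← FF_tr] at k2
  rw [← Fw_tr] at k3
  rw [barF_eq] at hH ⊢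
  have hc := cls_y false false hx0 hH
  have hQx : x = ![bar Q 1, bar Q 2] := by rw [hx, h3, h4]
  have key := hn (AlgebraicClosure K) (ax (tr (ex (algebraMap K _) a)) x)
    (bx (tr (ex (algebraMap K _) b)) x)
    (h.line₂ x hx0) (p 0) y₀ hy0 k2 k3 k4 k5 _ _ _ hc (bar Q 0) ![bar Q 3, bar Q 4]
    (fun h => by
      rcases h1.2 with h' | h'
      · exact h' ((map_eq_zero (algebraMap K (AlgebraicClosure K))).1 (congrFun h 0))
      · exact h' ((map_eq_zero (algebraMap K (AlgebraicClosure K))).1 (congrFun h 1)))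
    (by
      have e1 := aeval_F a b (bar Q)
      have e2 : aeval (bar Q) (F a b) = 0 := by
        have e3 := aeval_algebraMap_apply (AlgebraicClosure K) Q (F a b)
        have e4 : (algebraMap K (AlgebraicClosure K)) ∘ Q = bar Q := rfl
        rw [e4, MvPolynomial.aeval_eq_eval] at e3
        rw [e3]
        show algebraMap K (AlgebraicClosure K) (eval Q (F a b)) = 0
        rw [h2, map_zero]
      rw [e2] at e1
      have e5 := FF_tr (ex (algebraMap K (AlgebraicClosure K)) a)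
        (ex (algebraMap K (AlgebraicClosure K)) b) (bar Q 0) ![bar Q 1, bar Q 2]
        ![bar Q 3, bar Q 4]
      rw [← e1] at e5
      rw [hQx]
      exact e5)
  have e5 : ky (F (ex (algebraMap K (AlgebraicClosure K)) a) (ex (algebraMap K (AlgebraicClosure K)) b))
      false false x ![bar Q 0, ![bar Q 3, bar Q 4] 0, ![bar Q 3, bar Q 4] 1] =
      mk (F (ex (algebraMap K (AlgebraicClosure K)) a) (ex (algebraMap K (AlgebraicClosure K)) b))
        (pt (bar Q)) := by
    rw [hQx]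
    unfold ky p5
    congr 2
    funext i
    fin_cases i <;> rfl
  rw [e5] at key
  rw [← natCast_zsmul]
  rw [sub_eq_zero]
  exact key

end nodes

end Pool.Agent.H66.ZK
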