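import Pool.Agent.H66.ZK.Stm2
import Pool.Agent.H66.TK.Mov

/-!
# Project ZK: the group of zero-cycles (helper66)
-/

set_option autoImplicit false
set_option linter.unusedSimpArgs false
set_option linter.unusedSectionVars false

open Pool.Agent.Y720.MZ Pool.Agent.Q35.TT Pool.Agent.Q149.TT Pool.Agent.Q35.ZC Pool.Agent.H66.TK
open MvPolynomial (eval)

namespace Pool.Agent.H66.ZK

section basic

variable {k : Type} [Field k]

theorem F_eq (a : Fin 3 → Fin 3 → k) (b : Fin 4 → Fin 4 → k) : F a b = eqn a b := by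
  simp only [F, eqn, FF, cub, ax, bx, q2, q3, Fin.sum_univ_succ, Fin.sum_univ_zero]
  simp
  ring

theorem eval_F (a : Fin 3 → Fin 3 → k) (b : Fin 4 → Fin 4 → k) (p : Fin 5 → k) :
    eval p (F a b) = FF a b (p 0) ![p 1, p 2] ![p 3, p 4] := by
  rw [F_eq]
  exact eval_eqn a b p

theorem vec2 {E : Type} (x : Fin 2 → E) : ![x 0, x 1] = x := by
  funext i
  fin_cases i <;> rfl

theorem eval_p5 (a : Fin 3 → Fin 3 → k) (b : Fin 4 → Fin 4 → k) (e₁ e₂ : Bool) (w : k)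
    (x y : Fin 2 → k) : eval (p5 e₁ e₂ w x y) (F a b) = FF (chA e₁ e₂ a) (chA e₁ e₂ b) w x y := by
  rw [eval_F, FF_ch]
  show FF a b w ![sw e₁ x 0, sw e₁ x 1] ![sw e₂ y 0, sw e₂ y 1] = _
  rw [vec2, vec2]

/-- the group of classes -/
abbrev CG (f : MvPolynomial (Fin 5) k) : Type := ((Fin 5 → k) →₀ ℤ) ⧸ Rat f

/-- the class of a zero-cycle -/
noncomputable def mk (f : MvPolynomial (Fin 5) k) (z : (Fin 5 → k) →₀ ℤ) : CG f :=
  QuotientAddGroup.mk' (Rat f) z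

theorem mk_add (f : MvPolynomial (Fin 5) k) (z z' : (Fin 5 → k) →₀ ℤ) :
    mk f (z + z') = mk f z + mk f z' := map_add _ _ _

theorem mk_sub (f : MvPolynomial (Fin 5) k) (z z' : (Fin 5 → k) →₀ ℤ) :
    mk f (z - z') = mk f z - mk f z' := map_sub _ _ _

theorem mk_zsmul (f : MvPolynomial (Fin 5) k) (m : ℤ) (z : (Fin 5 → k) →₀ ℤ) :
    mk f (m • z) = m • mk f z := map_zsmul _ _ _

theorem mk_nsmul (f : MvPolynomial (Fin 5) k) (m : ℕ) (z : (Fin 5 → k) →₀ ℤ) :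
    mk f (m • z) = m • mk f z := map_nsmul _ _ _

theorem mk_eq_zero (f : MvPolynomial (Fin 5) k) (z : (Fin 5 → k) →₀ ℤ) :
    mk f z = 0 ↔ z ∈ Rat f := QuotientAddGroup.eq_zero_iff z

theorem mk_eq (f : MvPolynomial (Fin 5) k) (z z' : (Fin 5 → k) →₀ ℤ) :
    mk f z = mk f z' ↔ z - z' ∈ Rat f := by
  rw [← mk_eq_zero, mk_sub, sub_eq_zero]

theorem mk_scale (f : MvPolynomial (Fin 5) k) (p : Fin 5 → k) {l m : k} (hl : l ≠ 0) (hm : m ≠ 0) :
    mk f (pt (scale l m p)) = mk f (pt p) := by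
  rw [mk_eq]
  exact AddSubgroup.subset_closure (Or.inl ⟨p, l, m, hl, hm, rfl⟩)

theorem mk_sec {f : MvPolynomial (Fin 5) k} {z z' : (Fin 5 → k) →₀ ℤ} (h : LineSection f z)
    (h' : LineSection f z') : mk f z = mk f z' := by
  rw [mk_eq]
  exact AddSubgroup.subset_closure (Or.inr ⟨z, z', h, h', rfl⟩)

theorem li_sw {e g : Fin 3 → k} (e₁ : Bool) (h : LinearIndependent k ![e, g]) :
    LinearIndependent k ![![e 0, sw e₁ ![e 1, e 2] 0, sw e₁ ![e 1, e 2] 1],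
      ![g 0, sw e₁ ![g 1, g 2] 0, sw e₁ ![g 1, g 2] 1]] := by
  rw [LinearIndependent.pair_iff] at h ⊢
  intro s t hst
  apply h s t
  have h0 := congrFun hst 0
  have h1 := congrFun hst 1
  have h2 := congrFun hst 2
  funext i
  cases e₁
  · fin_cases i
    · exact h0
    · exact h1
    · exact h2
  · fin_cases i
    · exact h0
    · exact h2
    · exact h1

theorem sw_comb (e₁ : Bool) (e g : Fin 3 → k) (l m : k) (i : Fin 2) :
    sw e₁ ![l * e 1 + m * g 1, l * e 2 + m * g 2] i =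
      l * sw e₁ ![e 1, e 2] i + m * sw e₁ ![g 1, g 2] i := by
  cases e₁ <;> fin_cases i <;> rfl

/-- the class of a point of a plane cubic in the direction `x` -/
noncomputable def kx (f : MvPolynomial (Fin 5) k) (e₁ e₂ : Bool) (y : Fin 2 → k) (v : Fin 3 → k) :
    CG f :=
  mk f (pt (p5 e₁ e₂ (v 0) ![v 1, v 2] y))

/-- the class of a point of a plane cubic in the direction `y` -/
noncomputable def ky (f : MvPolynomial (Fin 5) k) (e₁ e₂ : Bool) (x : Fin 2 → k) (v : Fin 3 → k) :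
    CG f :=
  mk f (pt (p5 e₁ e₂ (v 0) x ![v 1, v 2]))

variable {a : Fin 3 → Fin 3 → k} {b : Fin 4 → Fin 4 → k}

theorem sw_ne' {e : Bool} {x : Fin 2 → k} (hx : x ≠ 0) : sw e x 0 ≠ 0 ∨ sw e x 1 ≠ 0 := by
  by_contra h
  push Not at h
  apply sw_ne e hx
  funext i
  fin_cases i
  · exact h.1
  · exact h.2

/-- sections of the plane cubics in the direction `x` -/
theorem sec_x (e₁ e₂ : Bool) {y : Fin 2 → k} (hy : y ≠ 0) {v : Fin 3 → Fin 3 → k}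
    (h : Sec (ax (chA e₁ e₂ a) y) (bx (chA e₁ e₂ b) y) v) :
    LineSection (F a b) (pt (p5 e₁ e₂ (v 0 0) ![v 0 1, v 0 2] y) +
      pt (p5 e₁ e₂ (v 1 0) ![v 1 1, v 1 2] y) + pt (p5 e₁ e₂ (v 2 0) ![v 2 1, v 2 2] y)) := by
  obtain ⟨e, g, a', b', c, h1, h2, h3, h4, h5⟩ := h
  refine ⟨fun i => p5 e₁ e₂ (v i 0) ![v i 1, v i 2] y, Or.inl ⟨sw e₂ y 0, sw e₂ y 1, _, _, a', b', c,
    sw_ne' hy, li_sw e₁ h1, h2, h3, fun i => ?_, fun l m => ?_⟩, rfl⟩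
  · show p5 e₁ e₂ (v i 0) ![v i 1, v i 2] y = _
    rw [h4 i 0, h4 i 1, h4 i 2]
    unfold p5
    rw [sw_comb, sw_comb]
    rfl
  · have h6 := h5 l m
    rw [← sub_eq_zero] at h6 ⊢
    rw [← h6]
    congr 1
    have h7 := eval_p5 a b e₁ e₂ (l * e 0 + m * g 0) ![l * e 1 + m * g 1, l * e 2 + m * g 2] y
    rw [FF] at h7
    rw [← h7]
    unfold p5
    rw [sw_comb, sw_comb]
    rfl

/-- sections of the plane cubics in the direction `y` -/
theorem sec_y (e₁ e₂ : Bool) {x : Fin 2 → k} (hx : x ≠ 0) {v : Fin 3 → Fin 3 → k}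
    (h : Sec (ax (tr (chA e₁ e₂ a)) x) (bx (tr (chA e₁ e₂ b)) x) v) :
    LineSection (F a b) (pt (p5 e₁ e₂ (v 0 0) x ![v 0 1, v 0 2]) +
      pt (p5 e₁ e₂ (v 1 0) x ![v 1 1, v 1 2]) + pt (p5 e₁ e₂ (v 2 0) x ![v 2 1, v 2 2])) := by
  obtain ⟨e, g, a', b', c, h1, h2, h3, h4, h5⟩ := h
  refine ⟨fun i => p5 e₁ e₂ (v i 0) x ![v i 1, v i 2], Or.inr ⟨sw e₁ x 0, sw e₁ x 1, _, _, a', b', c,
    sw_ne' hx, li_sw e₂ h1, h2, h3, fun i => ?_, fun l m => ?_⟩, rfl⟩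
  · show p5 e₁ e₂ (v i 0) x ![v i 1, v i 2] = _
    rw [h4 i 0, h4 i 1, h4 i 2]
    unfold p5
    rw [sw_comb, sw_comb]
    rfl
  · have h6 := h5 l m
    rw [← sub_eq_zero] at h6 ⊢
    rw [← h6]
    congr 1
    have h7 := eval_p5 a b e₁ e₂ (l * e 0 + m * g 0) x ![l * e 1 + m * g 1, l * e 2 + m * g 2]
    rw [← FF_tr, FF] at h7
    rw [← h7]
    unfold p5
    rw [sw_comb, sw_comb]
    rfl

theorem sw_smul (e : Bool) (l : k) (x : Fin 2 → k) (i : Fin 2) :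
    sw e ![l * x 0, l * x 1] i = l * sw e x i := by
  cases e <;> fin_cases i <;> rfl

theorem scale_p5 (e₁ e₂ : Bool) (l m w : k) (x y : Fin 2 → k) : scale l m (p5 e₁ e₂ w x y) =
    p5 e₁ e₂ (l * m * w) ![l * x 0, l * x 1] ![m * y 0, m * y 1] := by
  unfold p5 scale
  rw [sw_smul, sw_smul, sw_smul, sw_smul]
  rfl

theorem cls_x (e₁ e₂ : Bool) {y : Fin 2 → k} (hy : y ≠ 0) {h : (Fin 5 → k) →₀ ℤ}
    (hh : LineSection (F a b) h) :
    Cls (ax (chA e₁ e₂ a) y) (bx (chA e₁ e₂ b) y) (kx (F a b) e₁ e₂ y) (mk (F a b) h) := by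
  refine ⟨fun v l hl => ?_, fun v hv => ?_⟩
  · unfold kx
    rw [← mk_scale (F a b) (p5 e₁ e₂ (v 0) ![v 1, v 2] y) hl one_ne_zero, scale_p5]
    simp only [one_mul, mul_one, vec2, Pi.smul_apply, smul_eq_mul, Matrix.cons_val_zero,
      Matrix.cons_val_one]
  · unfold kx
    rw [← mk_add, ← mk_add]
    exact mk_sec (sec_x e₁ e₂ hy hv) hh

theorem cls_y (e₁ e₂ : Bool) {x : Fin 2 → k} (hx : x ≠ 0) {h : (Fin 5 → k) →₀ ℤ}
    (hh : LineSection (F a b) h) :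
    Cls (ax (tr (chA e₁ e₂ a)) x) (bx (tr (chA e₁ e₂ b)) x) (ky (F a b) e₁ e₂ x)
      (mk (F a b) h) := by
  refine ⟨fun v l hl => ?_, fun v hv => ?_⟩
  · unfold ky
    rw [← mk_scale (F a b) (p5 e₁ e₂ (v 0) x ![v 1, v 2]) one_ne_zero hl, scale_p5]
    simp only [one_mul, mul_one, vec2, Pi.smul_apply, smul_eq_mul, Matrix.cons_val_zero,
      Matrix.cons_val_one]
  · unfold ky
    rw [← mk_add, ← mk_add]
    exact mk_sec (sec_y e₁ e₂ hx hv) hh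

end basic

end Pool.Agent.H66.ZK
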