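import Pool.Agent.H66.ZK.Cyc

/-!
# Project ZK: moves and classes, central points (helper66)
-/

set_option autoImplicit false
set_option linter.unusedSimpArgs false
set_option linter.unusedSectionVars false

open Pool.Agent.Y720.MZ Pool.Agent.Q35.TT Pool.Agent.Q149.TT Pool.Agent.Q35.ZC Pool.Agent.H66.TK
open MvPolynomial (eval)

namespace Pool.Agent.H66.ZK

section moves

variable {k : Type} [Field k] [CharZero k] {a : Fin 3 → Fin 3 → k} {b : Fin 4 → Fin 4 → k}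

/-- the new point lies on the plane cubic -/
theorem new_on (α : Fin 3 → k) (β : Fin 4 → k) (w t u Z : k) (h0 : cub α β w ![1, t] = 0)
    (hcw : cw α w ![1, t] ≠ 0) (hM : MulPt (qt α β w t) u Z) (hd : dn α β w t u Z ≠ 0) :
    cub α β (w + zz α β w t u Z * (sl α β w t + u)) ![1, t + zz α β w t u Z] = 0 := by
  obtain ⟨s, hs⟩ : ∃ s, s = sl α β w t := ⟨_, rfl⟩
  have hs' : cw α w ![1, t] * s + c1 α β w ![1, t] = 0 := by
    rw [hs, sl]
    field_simp
    ring
  obtain ⟨hw0, -, -, M, X, W, h', -, hD, hu, hZ⟩ := hM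
  have h4 := Yf_eqn (q₁ := (qt α β w t).2 0) (q₂ := (qt α β w t).2 1)
    (q₃ := (qt α β w t).2 2) (q₄ := (qt α β w t).2 3) hw0 (cv_ns.1 h').1 hD
  rw [← hu, ← hZ] at h4
  have e0 : (qt α β w t).1 = mm α β w ![1, t] s 1 := by rw [hs]; rfl
  have e1 : (qt α β w t).2 = tay (gq α β w ![1, t]) s := by rw [hs]; rfl
  rw [e0, e1, ← bq_gq α β w t s hs'] at h4
  have h5 : Z ^ 2 = bq (gq α β w ![1, t]) ![1, s + u] := by
    rw [h4, bq_one, bq_one]
    have e0 : tay (gq α β w ![1, t]) s 0 = gq α β w ![1, t] 1 + 2 * gq α β w ![1, t] 2 * s +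
      3 * gq α β w ![1, t] 3 * s ^ 2 + 4 * gq α β w ![1, t] 4 * s ^ 3 := rfl
    have e1 : tay (gq α β w ![1, t]) s 1 = gq α β w ![1, t] 2 + 3 * gq α β w ![1, t] 3 * s +
      6 * gq α β w ![1, t] 4 * s ^ 2 := rfl
    have e2 : tay (gq α β w ![1, t]) s 2 = gq α β w ![1, t] 3 + 4 * gq α β w ![1, t] 4 * s := rfl
    have e3 : tay (gq α β w ![1, t]) s 3 = gq α β w ![1, t] 4 := rfl
    rw [e0, e1, e2, e3]
    ring
  have hd' : mm α β w ![1, t] (s + u) 1 + Z ≠ 0 := by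
    rw [hs]
    exact hd
  have h6 := cub_root α β w t (s + u) Z h0 h5 hd'
  have e2 : cw α w ![1, t] * (s + u) + c1 α β w ![1, t] = cw α w ![1, t] * u := by
    linear_combination hs'
  rw [e2] at h6
  rw [zz, dn, ← hs]
  exact h6

theorem cld_aux {P : Fin 5 → k} {Q Q' : Fin 5 → k} {m m' : ℤ} {h : (Fin 5 → k) →₀ ℤ}
    {f : MvPolynomial (Fin 5) k}
    (h1 : pt Q - ((3 * m + 1) • pt P - m • h) ∈ Rat f)
    (h2 : mk f (pt Q') = (3 * m' + 1) • mk f (pt Q) - m' • mk f h) :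
    pt Q' - ((3 * (3 * m * m' + m + m') + 1) • pt P - (3 * m * m' + m + m') • h) ∈ Rat f := by
  rw [← mk_eq, mk_sub, mk_zsmul, mk_zsmul] at h1 ⊢
  rw [h2, h1]
  module

theorem isPt5 (e₁ e₂ : Bool) (w t r : k) : IsPoint (p5 e₁ e₂ w ![1, t] ![1, r]) := by
  cases e₁ <;> cases e₂ <;> simp [IsPoint, p5, TK.sw]

theorem vne (t : k) : (![1, t] : Fin 2 → k) ≠ 0 := fun h => one_ne_zero (congrFun h 0)

/-- the points whose class is in the coset are closed under the moves in the direction `x` -/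
theorem cld_x (hC : S_CLS) (e₁ e₂ : Bool) (P : Fin 5 → k) :
    Cld (chA e₁ e₂ a) (chA e₁ e₂ b) fun z =>
      p5 e₁ e₂ z.1 ![1, z.2.1] ![1, z.2.2] ∈ Multiples (F a b) P := by
  refine ⟨fun z hz => ?_, fun w t r hR hFw u Z hM hd => ?_⟩
  · rw [← eval_p5]
    exact hz.2.1
  · obtain ⟨h1, h2, m, h, hh, h3⟩ := hR
    have h0 : FF (chA e₁ e₂ a) (chA e₁ e₂ b) w ![1, t] ![1, r] = 0 := by
      rw [← eval_p5]
      exact h2
    obtain ⟨m', h4⟩ := hC k _ _ w t h0 hFw hM.1 _ _ _ (cls_x e₁ e₂ (vne r) hh) u Z hM hd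
    refine ⟨isPt5 e₁ e₂ _ _ _, ?_, 3 * m * m' + m + m', h, hh, cld_aux h3 h4⟩
    rw [eval_p5]
    exact new_on _ _ w t u Z h0 hFw hM hd

/-- the same in the direction `y` -/
theorem cld_y (hC : S_CLS) (e₁ e₂ : Bool) (P : Fin 5 → k) :
    Cld (tr (chA e₁ e₂ a)) (tr (chA e₁ e₂ b)) fun z =>
      p5 e₁ e₂ (sp z).1 ![1, (sp z).2.1] ![1, (sp z).2.2] ∈ Multiples (F a b) P := by
  refine ⟨fun z hz => ?_, fun w r t hR hFw u Z hM hd => ?_⟩
  · have h1 := eval_p5 a b e₁ e₂ z.1 ![1, z.2.2] ![1, z.2.1]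
    rw [FF_tr, ← h1]
    exact hz.2.1
  · obtain ⟨h1, h2, m, h, hh, h3⟩ := hR
    have h0 : FF (tr (chA e₁ e₂ a)) (tr (chA e₁ e₂ b)) w ![1, r] ![1, t] = 0 := by
      rw [FF_tr, ← eval_p5]
      exact h2
    obtain ⟨m', h4⟩ := hC k _ _ w r h0 hFw hM.1 _ _ _ (cls_y e₁ e₂ (vne t) hh) u Z hM hd
    refine ⟨isPt5 e₁ e₂ _ _ _, ?_, 3 * m * m' + m + m', h, hh, cld_aux h3 h4⟩
    show eval (p5 e₁ e₂ _ ![1, t] ![1, _]) (F a b) = 0
    rw [eval_p5, ← FF_tr]
    exact new_on _ _ w r u Z h0 hFw hM hd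

/-- the section by the tangent -/
theorem sec_tan (α : Fin 3 → k) (β : Fin 4 → k) (w t : k) (h0 : cub α β w ![1, t] = 0)
    (hcw : cw α w ![1, t] ≠ 0) (hl : ∀ l m : k, ∃ x : Fin 2 → k, cub α β (l * x 0 + m * x 1) x ≠ 0) :
    Sec α β ![p0 w t, p0 w t, p1 α β w t] := by
  obtain ⟨s, hs⟩ : ∃ s, s = sl α β w t := ⟨_, rfl⟩
  have hs' : cw α w ![1, t] * s + c1 α β w ![1, t] = 0 := by
    rw [hs, sl]
    field_simp
    ring
  have hm : (qt α β w t).1 = mm α β w ![1, t] s 1 := by rw [hs]; rfl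
  -- the form on the tangent
  have key : ∀ l m : k, cub α β (l * w + m * s) ![l * 1 + m * 0, l * t + m * 1] =
      m ^ 2 * (l * mm α β w ![1, t] s 1 + m * nn α β s 1) := by
    intro l m
    have e1 : cub α β (l * w + m * s) ![l * 1 + m * 0, l * t + m * 1] =
        l ^ 3 * cub α β w ![1, t] + l ^ 2 * m * (cw α w ![1, t] * s + c1 α β w ![1, t]) +
          m ^ 2 * (l * mm α β w ![1, t] s 1 + m * nn α β s 1) := by
      simp [cub, cw, c1, mm, nn, q2, q3]
      ring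
    rw [e1, h0, hs']
    ring
  refine ⟨![w, 1, t], ![s, 0, 1], ![1, 1, nn α β s 1], ![0, 0, -(mm α β w ![1, t] s 1)], -1, ?_,
    neg_ne_zero.2 one_ne_zero, ?_, ?_, ?_⟩
  · rw [LinearIndependent.pair_iff]
    intro c d hcd
    have h1 := congrFun hcd 1
    have h2 := congrFun hcd 2
    simp at h1 h2
    rw [h1] at h2
    simp at h2
    exact ⟨h1, h2⟩
  · intro i
    fin_cases i
    · exact Or.inl one_ne_zero
    · exact Or.inl one_ne_zero
    · show nn α β s 1 ≠ 0 ∨ -(mm α β w ![1, t] s 1) ≠ 0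
      by_contra hc
      push Not at hc
      obtain ⟨hn, hmm⟩ := hc
      rw [neg_eq_zero] at hmm
      -- the tangent lies on the cubic
      obtain ⟨x, hx⟩ := hl (w - t * s) s
      apply hx
      have h3 := key (x 0) (x 1 - t * x 0)
      have h3' : (x 1 - t * x 0) ^ 2 * (x 0 * mm α β w ![1, t] s 1 + (x 1 - t * x 0) * nn α β s 1) =
          0 := by
        rw [hn, hmm]
        ring
      rw [h3'] at h3
      rw [← h3]
      have e : x = ![x 0 * 1 + (x 1 - t * x 0) * 0, x 0 * t + (x 1 - t * x 0) * 1] := by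
        funext i
        fin_cases i
        · show x 0 = x 0 * 1 + (x 1 - t * x 0) * 0
          ring
        · show x 1 = x 0 * t + (x 1 - t * x 0) * 1
          ring
      rw [← e]
      congr 1
      ring
  · intro i j
    fin_cases i
    · fin_cases j <;> simp [p0]
    · fin_cases j <;> simp [p0]
    · fin_cases j
      · show p1 α β w t 0 = nn α β s 1 * w + -(mm α β w ![1, t] s 1) * s
        rw [p1, hm, ← hs]
        rfl
      · show p1 α β w t 1 = nn α β s 1 * 1 + -(mm α β w ![1, t] s 1) * 0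
        rw [p1, hm, ← hs]
        rfl
      · show p1 α β w t 2 = nn α β s 1 * t + -(mm α β w ![1, t] s 1) * 1
        rw [p1, hm, ← hs]
        rfl
  · intro l m
    show cub α β (l * w + m * s) ![l * 1 + m * 0, l * t + m * 1] = -1 * ((0 * l - 1 * m) *
      (0 * l - 1 * m) * (-(mm α β w ![1, t] s 1) * l - nn α β s 1 * m))
    rw [key]
    ring

end moves

/-- no line over the field itself -/
theorem noLine_base {K : Type} [Field K] [CharZero K] {a : Fin 3 → Fin 3 → K} {b : Fin 4 → Fin 4 → K}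
    (h : NoLine a b) {y : Fin 2 → K} (hy : y ≠ 0) (l m : K) :
    ∃ x : Fin 2 → K, cub (ax a y) (bx b y) (l * x 0 + m * x 1) x ≠ 0 := by
  by_contra hc
  push Not at hc
  set τ := algebraMap K (AlgebraicClosure K) with hτ
  have hy' : (fun i => τ (y i)) ≠ 0 := by
    intro h0
    apply hy
    funext i
    exact (map_eq_zero τ).1 (congrFun h0 i)
  obtain ⟨x, hx⟩ := h (fun i => τ (y i)) hy' (τ l) (τ m)
  apply hx
  -- the form on the line, as a polynomial in the two coordinates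
  set G : MvPolynomial (Fin 2) K := (MvPolynomial.C l * MvPolynomial.X 0 +
      MvPolynomial.C m * MvPolynomial.X 1) ^ 3 + (∑ i : Fin 3, MvPolynomial.C (ax a y i) *
      (MvPolynomial.X 0 ^ (2 - (i : ℕ)) * MvPolynomial.X 1 ^ (i : ℕ))) *
        (MvPolynomial.C l * MvPolynomial.X 0 + MvPolynomial.C m * MvPolynomial.X 1) +
      ∑ i : Fin 4, MvPolynomial.C (bx b y i) *
      (MvPolynomial.X 0 ^ (3 - (i : ℕ)) * MvPolynomial.X 1 ^ (i : ℕ)) with hG
  have h1 : G = 0 := by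
    have : Infinite K := CharZero.infinite K
    apply MvPolynomial.funext
    intro z
    rw [map_zero, ← hc z]
    simp [hG, cub, q2, q3, Fin.sum_univ_succ]
    ring
  have h2 := congrArg (MvPolynomial.eval₂ τ x) h1
  rw [MvPolynomial.eval₂_zero] at h2
  rw [← h2]
  simp [hG, FF, cub, ax, bx, q2, q3, ex, Fin.sum_univ_succ, MvPolynomial.eval₂_add,
    MvPolynomial.eval₂_mul, MvPolynomial.eval₂_pow, map_add, map_mul, map_pow]
  ring

/-- there is a section through each point off the ramification curve -/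
theorem exists_sec {K : Type} [Field K] [CharZero K] {a : Fin 3 → Fin 3 → K}
    {b : Fin 4 → Fin 4 → K} (h : NoLine a b) (e₁ e₂ : Bool) {w t r : K}
    (h0 : FF (chA e₁ e₂ a) (chA e₁ e₂ b) w ![1, t] ![1, r] = 0)
    (h1 : Fw (chA e₁ e₂ a) w ![1, t] ![1, r] ≠ 0) : ∃ z, LineSection (F a b) z := by
  have h2 := sec_tan (ax (chA e₁ e₂ a) ![1, r]) (bx (chA e₁ e₂ b) ![1, r]) w t h0 h1
    (noLine_base (h.ch e₁ e₂) (vne r))
  exact ⟨_, sec_x e₁ e₂ (vne r) h2⟩

end Pool.Agent.H66.ZK
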