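import Mathlib

/-!
# Zero-cycles on the surfaces `w³ + A(x, y) w + B(x, y) = 0`: definitions (project ZK, helper66)
-/

set_option autoImplicit false

open MvPolynomial

namespace Pool.Agent.H66.ZK

section surface

variable {k : Type} [Field k]

/-- The form `F = w³ + A(x, y) w + B(x, y)` in the variables `w, x₀, x₁, y₀, y₁` (numbered `0, …, 4`);
`a i j` is the coefficient of `x₀²⁻ⁱ x₁ⁱ y₀²⁻ʲ y₁ʲ` in `A`, and `b i j` is the coefficient of
`x₀³⁻ⁱ x₁ⁱ y₀³⁻ʲ y₁ʲ` in `B`. -/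
noncomputable def F (a : Fin 3 → Fin 3 → k) (b : Fin 4 → Fin 4 → k) : MvPolynomial (Fin 5) k :=
  X 0 ^ 3 +
    (∑ i : Fin 3, ∑ j : Fin 3, C (a i j) *
      (X 1 ^ (2 - (i : ℕ)) * X 2 ^ (i : ℕ) * (X 3 ^ (2 - (j : ℕ)) * X 4 ^ (j : ℕ)))) * X 0 +
    ∑ i : Fin 4, ∑ j : Fin 4, C (b i j) *
      (X 1 ^ (3 - (i : ℕ)) * X 2 ^ (i : ℕ) * (X 3 ^ (3 - (j : ℕ)) * X 4 ^ (j : ℕ)))

/-- `p = (w, x₀, x₁, y₀, y₁)` are coordinates of a point: `x ≠ 0` and `y ≠ 0`. -/
def IsPoint {E : Type} [Zero E] (p : Fin 5 → E) : Prop :=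
  (p 1 ≠ 0 ∨ p 2 ≠ 0) ∧ (p 3 ≠ 0 ∨ p 4 ≠ 0)

/-- The coordinates `(l m w, l x, m y)` of the same point (if `l m ≠ 0`). -/
def scale {E : Type} [Mul E] (l m : E) (p : Fin 5 → E) : Fin 5 → E :=
  ![l * m * p 0, l * p 1, l * p 2, m * p 3, m * p 4]

/-- The surface is smooth, and no plane cubic `y` constant or `x` constant contains a line. (These
cubics do not contain the point with `x = 0` or `y = 0`, so the equation of the line would be
`w = l x₀ + m x₁` or `w = l y₀ + m y₁`.) -/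
structure Admissible (a : Fin 3 → Fin 3 → k) (b : Fin 4 → Fin 4 → k) : Prop where
  smooth : ∀ p : Fin 5 → AlgebraicClosure k, IsPoint p → aeval p (F a b) = 0 →
    ∃ i, aeval p (pderiv i (F a b)) ≠ 0
  cubics₁ : ∀ y₀ y₁ l m : AlgebraicClosure k, y₀ ≠ 0 ∨ y₁ ≠ 0 →
    ∃ x₀ x₁ : AlgebraicClosure k, aeval ![l * x₀ + m * x₁, x₀, x₁, y₀, y₁] (F a b) ≠ 0
  cubics₂ : ∀ x₀ x₁ l m : AlgebraicClosure k, x₀ ≠ 0 ∨ x₁ ≠ 0 →
    ∃ y₀ y₁ : AlgebraicClosure k, aeval ![l * y₀ + m * y₁, x₀, x₁, y₀, y₁] (F a b) ≠ 0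

end surface

section cycles

variable {k : Type} [Field k]

/-- The zero-cycle of the point with the coordinates `p`. Zero-cycles are formal sums of vectors of
coordinates. -/
noncomputable def pt (p : Fin 5 → k) : (Fin 5 → k) →₀ ℤ := Finsupp.single p 1

/-- The points `p 0, p 1, p 2` are the intersection points, with multiplicities, of the plane cubic
`f = 0`, `y = (y₀, y₁)`, and a line of this plane: the form on the line `l e + m g` is
`c ∏ (b_i l - a_i m)`, and `p i` is the point `a_i e + b_i g`. -/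
def Section₁ (f : MvPolynomial (Fin 5) k) (p : Fin 3 → Fin 5 → k) : Prop :=
  ∃ (y₀ y₁ : k) (e g a b : Fin 3 → k) (c : k), (y₀ ≠ 0 ∨ y₁ ≠ 0) ∧ LinearIndependent k ![e, g] ∧
    c ≠ 0 ∧ (∀ i, a i ≠ 0 ∨ b i ≠ 0) ∧
    (∀ i, p i = ![a i * e 0 + b i * g 0, a i * e 1 + b i * g 1, a i * e 2 + b i * g 2, y₀, y₁]) ∧
    ∀ l m : k, eval ![l * e 0 + m * g 0, l * e 1 + m * g 1, l * e 2 + m * g 2, y₀, y₁] f =
      c * ((b 0 * l - a 0 * m) * (b 1 * l - a 1 * m) * (b 2 * l - a 2 * m))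

/-- The same for the plane cubics `x = (x₀, x₁)`. -/
def Section₂ (f : MvPolynomial (Fin 5) k) (p : Fin 3 → Fin 5 → k) : Prop :=
  ∃ (x₀ x₁ : k) (e g a b : Fin 3 → k) (c : k), (x₀ ≠ 0 ∨ x₁ ≠ 0) ∧ LinearIndependent k ![e, g] ∧
    c ≠ 0 ∧ (∀ i, a i ≠ 0 ∨ b i ≠ 0) ∧
    (∀ i, p i = ![a i * e 0 + b i * g 0, x₀, x₁, a i * e 1 + b i * g 1, a i * e 2 + b i * g 2]) ∧
    ∀ l m : k, eval ![l * e 0 + m * g 0, x₀, x₁, l * e 1 + m * g 1, l * e 2 + m * g 2] f =
      c * ((b 0 * l - a 0 * m) * (b 1 * l - a 1 * m) * (b 2 * l - a 2 * m))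

/-- The zero-cycle `z` is a section of a plane cubic by a line. -/
def LineSection (f : MvPolynomial (Fin 5) k) (z : (Fin 5 → k) →₀ ℤ) : Prop :=
  ∃ p, (Section₁ f p ∨ Section₂ f p) ∧ z = pt (p 0) + pt (p 1) + pt (p 2)

/-- A group of zero-cycles which are rationally equivalent to zero on `f = 0`: it is generated by the
differences of two sections, and of two vectors of coordinates of the same point. -/
noncomputable def Rat (f : MvPolynomial (Fin 5) k) : AddSubgroup ((Fin 5 → k) →₀ ℤ) :=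
  AddSubgroup.closure ({z | ∃ p l m, l ≠ 0 ∧ m ≠ 0 ∧ z = pt (scale l m p) - pt p} ∪
    {z | ∃ z₁ z₂, LineSection f z₁ ∧ LineSection f z₂ ∧ z = z₁ - z₂})

/-- The `k`-points `Q` with `[Q] = (3 m + 1) [P] - m h` for an integer `m`, where `h` is a section. -/
def Multiples (f : MvPolynomial (Fin 5) k) (P : Fin 5 → k) : Set (Fin 5 → k) :=
  {Q | IsPoint Q ∧ eval Q f = 0 ∧ ∃ (m : ℤ) (h : (Fin 5 → k) →₀ ℤ), LineSection f h ∧
    pt Q - ((3 * m + 1) • pt P - m • h) ∈ Rat f}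

/-- The point over the algebraic closure. -/
noncomputable def bar (P : Fin 5 → k) : Fin 5 → AlgebraicClosure k :=
  fun i => algebraMap k (AlgebraicClosure k) (P i)

/-- The equation over the algebraic closure. -/
noncomputable def barF (f : MvPolynomial (Fin 5) k) : MvPolynomial (Fin 5) (AlgebraicClosure k) :=
  map (algebraMap k (AlgebraicClosure k)) f

/-- The `k`-points `Q` for which a positive multiple of `3 [Q] - h`, `h` a section, is rationally
equivalent to zero over the algebraic closure. -/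
def Central (f : MvPolynomial (Fin 5) k) : Set (Fin 5 → k) :=
  {Q | IsPoint Q ∧ eval Q f = 0 ∧ ∃ (N : ℕ) (h : (Fin 5 → AlgebraicClosure k) →₀ ℤ), N ≠ 0 ∧
    LineSection (barF f) h ∧ N • (3 • pt (bar Q) - h) ∈ Rat (barF f)}

/-- A positive multiple of the difference of the points is rationally equivalent to zero over the
algebraic closure. -/
def Equivalent (f : MvPolynomial (Fin 5) k) (Q Q' : Fin 5 → k) : Prop :=
  ∃ N : ℕ, N ≠ 0 ∧ N • (pt (bar Q) - pt (bar Q')) ∈ Rat (barF f)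

/-- The point `p` over the algebraic closure is a singular point of its plane cubic `y` constant. -/
def Singular₁ (f : MvPolynomial (Fin 5) k) (p : Fin 5 → AlgebraicClosure k) : Prop :=
  IsPoint p ∧ aeval p f = 0 ∧ aeval p (pderiv 0 f) = 0 ∧ aeval p (pderiv 1 f) = 0 ∧
    aeval p (pderiv 2 f) = 0

/-- The point `p` over the algebraic closure is a singular point of its plane cubic `x` constant. -/
def Singular₂ (f : MvPolynomial (Fin 5) k) (p : Fin 5 → AlgebraicClosure k) : Prop :=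
  IsPoint p ∧ aeval p f = 0 ∧ aeval p (pderiv 0 f) = 0 ∧ aeval p (pderiv 3 f) = 0 ∧
    aeval p (pderiv 4 f) = 0

end cycles

section dense

variable {K : Type} [Field K] {ι : Type} {p : ι → ℕ} [∀ i, Fact (p i).Prime]

/-- The vectors of coordinates over `L` of the point with the coordinates `Q` over `K`. -/
def coords {L : Type} [Field L] (σ : K →+* L) (Q : Fin 5 → K) : Set (Fin 5 → L) :=
  {q | ∃ l m : L, l ≠ 0 ∧ m ≠ 0 ∧ q = scale l m fun j => σ (Q j)}

/-- The points of `R` are dense near `P` in the product of the sets of the `ℚ_[p i]`-points of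
`f = 0`. -/
def Dense (f : MvPolynomial (Fin 5) K) (R : Set (Fin 5 → K)) (P : Fin 5 → K)
    (σ : ∀ i, K →+* ℚ_[p i]) : Prop :=
  ∃ U ∈ nhds (fun i => (fun j => σ i (P j) : Fin 5 → ℚ_[p i])), ∀ S ∈ U,
    (∀ i, eval₂ (σ i) (S i) f = 0) → S ∈ closure {S | ∃ Q ∈ R, ∀ i, S i ∈ coords (σ i) Q}

/-- The points of `R` are dense near `P` in the product of the set of the real points and of the sets
of the `ℚ_[p i]`-points of `f = 0`. -/
def DenseReal (f : MvPolynomial (Fin 5) K) (R : Set (Fin 5 → K)) (P : Fin 5 → K)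
    (σ : ∀ i, K →+* ℚ_[p i]) (τ : K →+* ℝ) : Prop :=
  ∃ U ∈ nhds ((fun j => τ (P j) : Fin 5 → ℝ), fun i => (fun j => σ i (P j) : Fin 5 → ℚ_[p i])),
    ∀ S ∈ U, eval₂ τ S.1 f = 0 → (∀ i, eval₂ (σ i) (S.2 i) f = 0) →
      S ∈ closure {S | ∃ Q ∈ R, S.1 ∈ coords τ Q ∧ ∀ i, S.2 i ∈ coords (σ i) Q}

/-- The points of `R` are dense near `P`, for all finite nonempty sets of `p`-adic places of degree one
over different primes, with or without a real place. -/
def DenseNear (f : MvPolynomial (Fin 5) K) (R : Set (Fin 5 → K)) (P : Fin 5 → K) : Prop :=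
  ∀ (ι : Type) [Finite ι] [Nonempty ι] (p : ι → ℕ) [∀ v, Fact (p v).Prime],
    Function.Injective p → ∀ σ : ∀ v, K →+* ℚ_[p v],
      Dense f R P σ ∧ ∀ τ : K →+* ℝ, DenseReal f R P σ τ

end dense

end Pool.Agent.H66.ZK
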