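import Pool.Agent.H66.ZK.Nea

/-! # Project ZK, parts DNS and VIA -/

set_option autoImplicit false
set_option linter.unusedSimpArgs false

open Pool.Agent.Y720.MZ Pool.Agent.Q35.TT Pool.Agent.Q149.TT Pool.Agent.Q35.ZC Pool.Agent.H66.TK

namespace Pool.Agent.H66.ZK

theorem dns (h : S_ROO) : S_DNS := by
  intro K _ _ V _ L _ s a b R hR P hP hx hy hz
  obtain ⟨ε₀, hε₀, hroo⟩ := h K V L s a b P hP
  -- the second move
  obtain ⟨δ₂, hδ₂, h2⟩ := hy ε₀ hε₀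
  -- the first move
  obtain ⟨δ₁, hδ₁, h1⟩ := hx (min δ₂ ε₀) (lt_min hδ₂ hε₀)
  obtain ⟨ε, hε⟩ : ∃ ε, ε = min (min (δ₁ / 2) (δ₂ / 2)) (ε₀ / 2) := ⟨_, rfl⟩
  have p0 : 0 < ε := by
    rw [hε]
    positivity
  have p1 : ε ≤ δ₁ / 2 := by
    rw [hε]
    exact (min_le_left _ _).trans (min_le_left _ _)
  have p2 : ε ≤ δ₂ / 2 := by
    rw [hε]
    exact (min_le_left _ _).trans (min_le_right _ _)
  have p3 : ε ≤ ε₀ / 2 := by
    rw [hε]
    exact min_le_right _ _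
  refine ⟨ε, p0, fun q hq hn η hη => ?_⟩
  obtain ⟨ζ, hζ, hroo2⟩ := hroo η hη
  obtain ⟨ρ, hρ⟩ : ∃ ρ, ρ = min (min (ε₀ / 4) (δ₂ / 4)) (min (η / 2) (ζ / 2)) := ⟨_, rfl⟩
  have q0 : 0 < ρ := by
    rw [hρ]
    positivity
  have q1 : ρ ≤ ε₀ / 4 := by
    rw [hρ]
    exact (min_le_left _ _).trans (min_le_left _ _)
  have q2 : ρ ≤ δ₂ / 4 := by
    rw [hρ]
    exact (min_le_left _ _).trans (min_le_right _ _)
  have q3 : ρ ≤ η / 2 := by
    rw [hρ]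
    exact (min_le_right _ _).trans (min_le_left _ _)
  have q4 : ρ ≤ ζ / 2 := by
    rw [hρ]
    exact (min_le_right _ _).trans (min_le_right _ _)
  obtain ⟨z, hzR, hzn⟩ := hz (min δ₁ (δ₂ / 4)) (lt_min hδ₁ (by positivity))
  -- first move
  obtain ⟨z₁, k1, k2⟩ := h1 z hzR (fun v => ⟨(hzn v).1.trans_le (min_le_left _ _),
    (hzn v).2.1.trans_le (min_le_left _ _), (hzn v).2.2.trans_le (min_le_left _ _)⟩)
    (fun v => (q v).2.1) (fun v => (hn v).2.1.trans_le (by linarith)) ρ q0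
  -- second move
  obtain ⟨z₂, m1, m2⟩ := h2 (sp z₁) k1 (fun v => by
      obtain ⟨k3, k4, k5⟩ := k2 v
      refine ⟨k5.trans_le (min_le_left _ _), ?_, ?_⟩
      · show ‖s v z₁.2.2 - (P v).2.2‖ < δ₂
        have h3 := norm_sub_le_norm_sub_add_norm_sub (s v z₁.2.2) (s v z.2.2) (P v).2.2
        have h4 := (hzn v).2.2.trans_le (min_le_right _ _)
        linarith
      · show ‖s v z₁.2.1 - (P v).2.1‖ < δ₂
        have h3 := norm_sub_le_norm_sub_add_norm_sub (s v z₁.2.1) (q v).2.1 (P v).2.1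
        have h4 := (hn v).2.1
        linarith) (fun v => (q v).2.2) (fun v => (hn v).2.2.trans_le (by linarith)) ρ q0
  refine ⟨sp z₂, m1, fun v => ?_⟩
  obtain ⟨k3, k4, k5⟩ := k2 v
  obtain ⟨m3, m4, m5⟩ := m2 v
  have g1 : ‖s v z₂.2.2 - (q v).2.1‖ < 2 * ρ := by
    have h3 := norm_sub_le_norm_sub_add_norm_sub (s v z₂.2.2) (s v z₁.2.1) (q v).2.1
    have h4 : ‖s v z₂.2.2 - s v z₁.2.1‖ < ρ := m3
    linarith
  have g2 : ‖s v z₂.2.1 - (q v).2.2‖ < ρ := m4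
  refine ⟨?_, ?_, ?_⟩
  · show ‖s v z₂.1 - (q v).1‖ < η
    refine hroo2 v (s v z₂.1, s v z₂.2.2, s v z₂.2.1) (q v) ?_ (hq v).1 ⟨m5, ?_, ?_⟩
      ⟨(hn v).1.trans_le (by linarith), (hn v).2.1.trans_le (by linarith),
        (hn v).2.2.trans_le (by linarith)⟩ ?_ ?_
    · show FF (ex (s v) a) (ex (s v) b) (s v z₂.1) ![1, s v z₂.2.2] ![1, s v z₂.2.1] = 0
      have hz2 : FF a b z₂.1 ![1, z₂.2.2] ![1, z₂.2.1] = 0 := hR _ m1
      rw [FF_mp, hz2, map_zero]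
    · show ‖s v z₂.2.2 - (P v).2.1‖ < ε₀
      have h3 := norm_sub_le_norm_sub_add_norm_sub (s v z₂.2.2) (q v).2.1 (P v).2.1
      have h4 := (hn v).2.1
      linarith
    · show ‖s v z₂.2.1 - (P v).2.2‖ < ε₀
      have h3 := norm_sub_le_norm_sub_add_norm_sub (s v z₂.2.1) (q v).2.2 (P v).2.2
      have h4 := (hn v).2.2
      linarith
    · show ‖s v z₂.2.2 - (q v).2.1‖ < ζ
      linarith
    · show ‖s v z₂.2.1 - (q v).2.2‖ < ζ
      linarith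
  · show ‖s v z₂.2.2 - (q v).2.1‖ < η
    linarith
  · show ‖s v z₂.2.1 - (q v).2.2‖ < η
    linarith

theorem via (h : S_ROO) : S_VIA := by
  intro K _ _ V _ L _ s a b R hR P hP hx hP' ε hε
  obtain ⟨ε₀, hε₀, hroo⟩ := h K V L s a b P hP
  obtain ⟨δx, hδx, hmx⟩ := hx ε hε
  obtain ⟨δ₁, hδ₁, hm₁⟩ := hx ε₀ hε₀
  obtain ⟨ρ₀, hρ₀⟩ : ∃ ρ, ρ = min (min δ₁ (δx / 2)) (ε₀ / 2) := ⟨_, rfl⟩
  have r0 : 0 < ρ₀ := by
    rw [hρ₀]
    positivity
  have r1 : ρ₀ ≤ δ₁ := by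
    rw [hρ₀]
    exact (min_le_left _ _).trans (min_le_left _ _)
  have r2 : ρ₀ ≤ δx / 2 := by
    rw [hρ₀]
    exact (min_le_left _ _).trans (min_le_right _ _)
  have r3 : ρ₀ ≤ ε₀ / 2 := by
    rw [hρ₀]
    exact min_le_right _ _
  obtain ⟨P', hP1, hP2, hP3⟩ := hP' ρ₀ r0
  obtain ⟨δy, hδy, hmy⟩ := hP3 (δx / 2) (half_pos hδx)
  obtain ⟨ζ, hζ, hroo2⟩ := hroo δy hδy
  obtain ⟨δ, hδ⟩ : ∃ δ, δ = min (min (min δ₁ (δy / 2)) (min (ζ / 2) (ε₀ / 2))) (δx / 2) := ⟨_, rfl⟩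
  have d0 : 0 < δ := by
    rw [hδ]
    positivity
  have d1 : δ ≤ δ₁ := by
    rw [hδ]
    exact (min_le_left _ _).trans ((min_le_left _ _).trans (min_le_left _ _))
  have d2 : δ ≤ δy / 2 := by
    rw [hδ]
    exact (min_le_left _ _).trans ((min_le_left _ _).trans (min_le_right _ _))
  have d3 : δ ≤ ζ / 2 := by
    rw [hδ]
    exact (min_le_left _ _).trans ((min_le_right _ _).trans (min_le_left _ _))
  have d4 : δ ≤ ε₀ / 2 := by
    rw [hδ]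
    exact (min_le_left _ _).trans ((min_le_right _ _).trans (min_le_right _ _))
  have d5 : δ ≤ δx / 2 := by
    rw [hδ]
    exact min_le_right _ _
  refine ⟨δ, d0, fun z hz hn t ht η hη => ?_⟩
  obtain ⟨ρ, hρ⟩ : ∃ ρ, ρ = min (min (min (δx / 8) (δy / 2)) (min (ζ / 2) (ε₀ / 2))) (η / 2) :=
    ⟨_, rfl⟩
  have q0 : 0 < ρ := by
    rw [hρ]
    positivity
  have q1 : ρ ≤ δx / 8 := by
    rw [hρ]
    exact (min_le_left _ _).trans ((min_le_left _ _).trans (min_le_left _ _))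
  have q2 : ρ ≤ δy / 2 := by
    rw [hρ]
    exact (min_le_left _ _).trans ((min_le_left _ _).trans (min_le_right _ _))
  have q3 : ρ ≤ ζ / 2 := by
    rw [hρ]
    exact (min_le_left _ _).trans ((min_le_right _ _).trans (min_le_left _ _))
  have q4 : ρ ≤ ε₀ / 2 := by
    rw [hρ]
    exact (min_le_left _ _).trans ((min_le_right _ _).trans (min_le_right _ _))
  have q5 : ρ ≤ η / 2 := by
    rw [hρ]
    exact min_le_right _ _
  have n1 : ∀ v, ‖s v z.1 - (P v).1‖ < δ := fun v => (hn v).1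
  have n2 : ∀ v, ‖s v z.2.1 - (P v).2.2‖ < δ := fun v => (hn v).2.1
  have n3 : ∀ v, ‖s v z.2.2 - (P v).2.1‖ < δ := fun v => (hn v).2.2
  have ht' : ∀ v, ‖t v - (P v).2.2‖ < δ := ht
  -- first move
  obtain ⟨z₁, k1, k2⟩ := hm₁ (sp z) hz (fun v => ⟨(n1 v).trans_le d1, (n3 v).trans_le d1,
    (n2 v).trans_le d1⟩) (fun v => (P' v).2.1) (fun v => (hP2 v).2.1.trans_le r1) ρ q0
  have k3 : ∀ v, ‖s v z₁.2.2 - s v z.2.1‖ < ρ := fun v => (k2 v).1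
  have k4 : ∀ v, ‖s v z₁.2.1 - (P' v).2.1‖ < ρ := fun v => (k2 v).2.1
  have k5 : ∀ v, ‖s v z₁.1 - (P v).1‖ < ε₀ := fun v => (k2 v).2.2
  have k6 : ∀ v, ‖s v z₁.2.2 - (P v).2.2‖ < ρ + δ := fun v => by
    have h3 := norm_sub_le_norm_sub_add_norm_sub (s v z₁.2.2) (s v z.2.1) (P v).2.2
    have h4 := k3 v
    have h5 := n2 v
    linarith
  have k7 : ∀ v, ‖s v z₁.2.1 - (P v).2.1‖ < ρ + ρ₀ := fun v => by
    have h3 := norm_sub_le_norm_sub_add_norm_sub (s v z₁.2.1) (P' v).2.1 (P v).2.1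
    have h4 := k4 v
    have h5 := (hP2 v).2.1
    linarith
  have k8 : ∀ v, ‖s v z₁.1 - (P' v).1‖ < δy := fun v => by
    refine hroo2 v (s v z₁.1, s v z₁.2.1, s v z₁.2.2) (P' v) ?_ (hP1 v).1 ⟨k5 v, ?_, ?_⟩
      ⟨(hP2 v).1.trans_le (by linarith), (hP2 v).2.1.trans_le (by linarith), ?_⟩ ?_ ?_
    · show FF (ex (s v) a) (ex (s v) b) (s v z₁.1) ![1, s v z₁.2.1] ![1, s v z₁.2.2] = 0
      rw [FF_mp, hR _ k1, map_zero]
    · exact (k7 v).trans_le (by linarith)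
    · exact (k6 v).trans_le (by linarith)
    · rw [(hP2 v).2.2, sub_self, norm_zero]
      exact hε₀
    · exact (k4 v).trans_le (by linarith)
    · rw [(hP2 v).2.2]
      exact (k6 v).trans_le (by linarith)
  -- second move
  obtain ⟨z₂, m1, m2⟩ := hmy (sp z₁) k1 (fun v => by
    refine ⟨k8 v, ?_, ?_⟩
    · show ‖s v z₁.2.2 - (P' v).2.2‖ < δy
      rw [(hP2 v).2.2]
      exact (k6 v).trans_le (by linarith)
    · show ‖s v z₁.2.1 - (P' v).2.1‖ < δy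
      exact (k4 v).trans_le (by linarith)) t (fun v => by
    show ‖t v - (P' v).2.2‖ < δy
    rw [(hP2 v).2.2]
    exact (ht' v).trans_le (by linarith)) ρ q0
  have m3 : ∀ v, ‖s v z₂.2.2 - s v z₁.2.1‖ < ρ := fun v => (m2 v).1
  have m4 : ∀ v, ‖s v z₂.2.1 - t v‖ < ρ := fun v => (m2 v).2.1
  have m5 : ∀ v, ‖s v z₂.1 - (P' v).1‖ < δx / 2 := fun v => (m2 v).2.2
  -- third move
  obtain ⟨z₃, o1, o2⟩ := hmx (sp z₂) m1 (fun v => by
    refine ⟨?_, ?_, ?_⟩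
    · show ‖s v z₂.1 - (P v).1‖ < δx
      have h3 := norm_sub_le_norm_sub_add_norm_sub (s v z₂.1) (P' v).1 (P v).1
      have h4 := m5 v
      have h5 := (hP2 v).1
      linarith
    · show ‖s v z₂.2.2 - (P v).2.1‖ < δx
      have h3 := norm_sub_le_norm_sub_add_norm_sub (s v z₂.2.2) (s v z₁.2.1) (P v).2.1
      have h4 := m3 v
      have h5 := k7 v
      linarith
    · show ‖s v z₂.2.1 - (P v).2.2‖ < δx
      have h3 := norm_sub_le_norm_sub_add_norm_sub (s v z₂.2.1) (t v) (P v).2.2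
      have h4 := m4 v
      have h5 := ht' v
      linarith) (fun v => s v z.2.2) (fun v => (n3 v).trans_le (by linarith)) ρ q0
  refine ⟨sp z₃, o1, fun v => ?_⟩
  obtain ⟨o3, o4, o5⟩ := o2 v
  have o3' : ‖s v z₃.2.2 - s v z₂.2.1‖ < ρ := o3
  have o4' : ‖s v z₃.2.1 - s v z.2.2‖ < ρ := o4
  refine ⟨?_, ?_, o5⟩
  · show ‖s v z₃.2.1 - s v z.2.2‖ < η
    linarith
  · show ‖s v z₃.2.2 - t v‖ < η
    have h3 := norm_sub_le_norm_sub_add_norm_sub (s v z₃.2.2) (s v z₂.2.1) (t v)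
    have h4 := m4 v
    linarith

end Pool.Agent.H66.ZK
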