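import Pool.Agent.H66.ZK.Nea

/-! # Project ZK, part MVI -/

set_option autoImplicit false
set_option linter.unusedSimpArgs false

open Pool.Agent.Y720.MZ Pool.Agent.Q35.TT Pool.Agent.Q149.TT Pool.Agent.Q35.ZC Pool.Agent.H66.TK
open Filter Topology

namespace Pool.Agent.H66.ZK

section maps
variable {K E : Type} [Field K] [Field E] (τ : K →+* E)

theorem dn_mp (α : Fin 3 → K) (β : Fin 4 → K) (w t u Z : K) : τ (dn α β w t u Z) =
    dn (fun i => τ (α i)) (fun i => τ (β i)) (τ w) (τ t) (τ u) (τ Z) := by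
  rw [dn, dn, map_add, mm_mp, map_add, sl_mp, map_one]

theorem zz_mp (α : Fin 3 → K) (β : Fin 4 → K) (w t u Z : K) : τ (zz α β w t u Z) =
    zz (fun i => τ (α i)) (fun i => τ (β i)) (τ w) (τ t) (τ u) (τ Z) := by
  rw [zz, zz, map_div₀, dn_mp, map_mul, map_mul, cw_mp, map_neg, map_ofNat]

end maps

section cont
variable {L : Type} [NontriviallyNormedField L]

theorem dn_cont (α : Fin 3 → L) (β : Fin 4 → L) (w t : L) :
    Continuous fun p : L × L => dn α β w t p.1 p.2 := by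
  unfold dn mm
  fun_prop

/-- continuity of the map from the quartic curve to the plane cubic -/
theorem back_cont (α : Fin 3 → L) (β : Fin 4 → L) (w t τ Y t' w₀ : L) (hd : dn α β w t τ Y ≠ 0)
    (h1 : t + zz α β w t τ Y = t') {ε η : ℝ} (hη : 0 < η)
    (h2 : ‖w + zz α β w t τ Y * (sl α β w t + τ) - w₀‖ < ε) :
    ∃ ρ : ℝ, 0 < ρ ∧ ∀ u Z : L, ‖u - τ‖ < ρ → ‖Z - Y‖ < ρ → dn α β w t u Z ≠ 0 ∧
      ‖t + zz α β w t u Z - t'‖ < η ∧ ‖w + zz α β w t u Z * (sl α β w t + u) - w₀‖ < ε := by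
  have c1 : ContinuousAt (fun p : L × L => zz α β w t p.1 p.2) (τ, Y) := by
    unfold zz
    exact ContinuousAt.div (by fun_prop) (dn_cont α β w t).continuousAt hd
  have e1 : ∀ᶠ p in 𝓝 ((τ, Y) : L × L), dn α β w t p.1 p.2 ≠ 0 :=
    (dn_cont α β w t).continuousAt.eventually_ne hd
  have c2 : ContinuousAt (fun p : L × L => ‖t + zz α β w t p.1 p.2 - t'‖) (τ, Y) :=
    ((continuousAt_const.add c1).sub continuousAt_const).norm
  have c3 : ContinuousAt (fun p : L × L => ‖w + zz α β w t p.1 p.2 * (sl α β w t + p.1) - w₀‖)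
      (τ, Y) :=
    ((continuousAt_const.add (c1.mul (by fun_prop))).sub continuousAt_const).norm
  have e2 : ∀ᶠ p in 𝓝 ((τ, Y) : L × L), ‖t + zz α β w t p.1 p.2 - t'‖ < η := by
    refine c2.eventually (gt_mem_nhds ?_)
    show ‖t + zz α β w t τ Y - t'‖ < η
    rw [h1, sub_self, norm_zero]
    exact hη
  have e3 : ∀ᶠ p in 𝓝 ((τ, Y) : L × L),
      ‖w + zz α β w t p.1 p.2 * (sl α β w t + p.1) - w₀‖ < ε :=
    c3.eventually (gt_mem_nhds h2)
  obtain ⟨ρ, hρ, hb⟩ := Metric.eventually_nhds_iff_ball.1 (e1.and (e2.and e3))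
  refine ⟨ρ, hρ, fun u Z hu hZ => hb (u, Z) ?_⟩
  rw [Metric.mem_ball, Prod.dist_eq, max_lt_iff, dist_eq_norm, dist_eq_norm]
  exact ⟨hu, hZ⟩

theorem ax_near (a : Fin 3 → Fin 3 → L) (b : Fin 4 → Fin 4 → L) (r₀ : L) {δ : ℝ} (hδ : 0 < δ) :
    ∃ ρ : ℝ, 0 < ρ ∧ ∀ r : L, ‖r - r₀‖ < ρ → (∀ i, ‖ax a ![1, r] i - ax a ![1, r₀] i‖ < δ) ∧
      ∀ i, ‖bx b ![1, r] i - bx b ![1, r₀] i‖ < δ := by
  have c1 : ∀ i, Continuous fun r : L => ‖ax a ![1, r] i - ax a ![1, r₀] i‖ := by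
    intro i
    have : (fun r : L => ax a ![1, r] i) = fun r => a i 0 + a i 1 * r + a i 2 * r ^ 2 := by
      funext r
      simp [ax, q2]
    have h2 : Continuous fun r : L => ax a ![1, r] i := by
      rw [this]
      fun_prop
    exact (h2.sub continuous_const).norm
  have c2 : ∀ i, Continuous fun r : L => ‖bx b ![1, r] i - bx b ![1, r₀] i‖ := by
    intro i
    have : (fun r : L => bx b ![1, r] i) = fun r => b i 0 + b i 1 * r + b i 2 * r ^ 2 +
        b i 3 * r ^ 3 := by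
      funext r
      simp [bx, q3]
    have h2 : Continuous fun r : L => bx b ![1, r] i := by
      rw [this]
      fun_prop
    exact (h2.sub continuous_const).norm
  have e1 : ∀ᶠ r in 𝓝 r₀, ∀ i, ‖ax a ![1, r] i - ax a ![1, r₀] i‖ < δ := by
    rw [eventually_all]
    intro i
    refine (c1 i).continuousAt.eventually (gt_mem_nhds ?_)
    show ‖ax a ![1, r₀] i - ax a ![1, r₀] i‖ < δ
    rw [sub_self, norm_zero]
    exact hδ
  have e2 : ∀ᶠ r in 𝓝 r₀, ∀ i, ‖bx b ![1, r] i - bx b ![1, r₀] i‖ < δ := by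
    rw [eventually_all]
    intro i
    refine (c2 i).continuousAt.eventually (gt_mem_nhds ?_)
    show ‖bx b ![1, r₀] i - bx b ![1, r₀] i‖ < δ
    rw [sub_self, norm_zero]
    exact hδ
  obtain ⟨ρ, hρ, hb⟩ := Metric.eventually_nhds_iff_ball.1 (e1.and e2)
  refine ⟨ρ, hρ, fun r hr => hb r ?_⟩
  rw [Metric.mem_ball, dist_eq_norm]
  exact hr

end cont

theorem mvi (hT : S_TGT) : S_MVI := by
  intro K _ _ V _ L _ _ _ s HWs a b R hR P hP hI ε hε
  by_cases hV : IsEmpty V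
  · exact ⟨1, one_pos, fun z hz _ t _ η _ => ⟨z, hz, rfl, fun v => (hV.false v).elim⟩⟩
  rw [not_isEmpty_iff] at hV
  obtain ⟨δW, hδW, hW⟩ := HWs _ (fun v => (hI v).1) fun v => (hI v).2
  have hmin : 0 < min δW ε := lt_min hδW hε
  choose δT hδT hT' using fun v => hT (L v) _ _ _ _ (hP v).1 (hP v).2 (hI v).1 (min δW ε) hmin
  choose δA hδA hA using fun v => ax_near (ex (s v) a) (ex (s v) b) (P v).2.2 (hδT v)
  have := Fintype.ofFinite V
  obtain ⟨v₁, hv₁⟩ := Finite.exists_min fun v => min (δT v) (δA v)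
  refine ⟨min (δT v₁) (δA v₁), lt_min (hδT v₁) (hδA v₁), fun z hz hn t' ht' η hη => ?_⟩
  obtain ⟨w, t, r⟩ := z
  have b1 : ∀ v, min (δT v₁) (δA v₁) ≤ δT v := fun v => (hv₁ v).trans (min_le_left _ _)
  have b2 : ∀ v, min (δT v₁) (δA v₁) ≤ δA v := fun v => (hv₁ v).trans (min_le_right _ _)
  have hX : FF a b w ![1, t] ![1, r] = 0 := hR.on _ hz
  have hX' : ∀ v, cub (ax (ex (s v) a) ![1, s v r]) (bx (ex (s v) b) ![1, s v r]) (s v w)
      ![1, s v t] = 0 := by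
    intro v
    show FF (ex (s v) a) (ex (s v) b) (s v w) ![1, s v t] ![1, s v r] = 0
    rw [FF_mp, hX, map_zero]
  have g := fun v => hT' v (ax (ex (s v) a) ![1, s v r]) (bx (ex (s v) b) ![1, s v r]) (s v w)
    (s v t) ((hA v (s v r) ((hn v).2.2.trans_le (b2 v))).1)
    ((hA v (s v r) ((hn v).2.2.trans_le (b2 v))).2) ((hn v).1.trans_le (b1 v))
    ((hn v).2.1.trans_le (b1 v)) (hX' v)
  have g1 := fun v => (g v).1
  have g2 := fun v => (g v).2.1
  have g3 := fun v => (g v).2.2.1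
  choose τ Y g4 g5 g6 g7 g8 g9 using fun v => (g v).2.2.2 (t' v) ((ht' v).trans_le (b1 v))
  choose ρ hρ hback using fun v => back_cont _ _ _ _ _ _ (t' v) (P v).1 (g7 v) (g8 v) hη
    ((g9 v).trans_le (min_le_right _ _))
  obtain ⟨v₂, hv₂⟩ := Finite.exists_min ρ
  have e1 : ∀ v, qt (ax (ex (s v) a) ![1, s v r]) (bx (ex (s v) b) ![1, s v r]) (s v w) (s v t) =
      (s v (qt (ax a ![1, r]) (bx b ![1, r]) w t).1,
        fun j => s v ((qt (ax a ![1, r]) (bx b ![1, r]) w t).2 j)) := by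
    intro v
    rw [← ax_mp, ← bx_mp, qt_mp]
  simp only [e1] at g2 g3 g6
  obtain ⟨u, Z, m1, m2⟩ := hW (qt (ax a ![1, r]) (bx b ![1, r]) w t)
    (fun v => (g2 v).trans_le (min_le_left _ _)) (fun v j => (g3 v j).trans_le (min_le_left _ _))
    τ Y (fun v => (g4 v).trans_le (min_le_left _ _)) (fun v => (g5 v).trans_le (min_le_left _ _))
    g6 (ρ v₂) (hρ v₂)
  have m3 := fun v => hback v (s v u) (s v Z) ((m2 v).1.trans_le (hv₂ v))
    ((m2 v).2.trans_le (hv₂ v))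
  obtain ⟨v₀⟩ := hV
  have hcw : Fw a w ![1, t] ![1, r] ≠ 0 := by
    intro h
    apply g1 v₀
    show Fw (ex (s v₀) a) (s v₀ w) ![1, s v₀ t] ![1, s v₀ r] = 0
    rw [Fw_mp, h, map_zero]
  have hdn : dn (ax a ![1, r]) (bx b ![1, r]) w t u Z ≠ 0 := by
    intro h
    apply (m3 v₀).1
    rw [← ax_mp, ← bx_mp, ← dn_mp, h, map_zero]
  refine ⟨_, hR.mv w t r hz hcw u Z m1 hdn, rfl, fun v => ?_⟩
  obtain ⟨-, m4, m5⟩ := m3 v
  rw [← ax_mp, ← bx_mp, ← zz_mp] at m4 m5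
  rw [← sl_mp, ← map_add, ← map_mul, ← map_add] at m5
  rw [← map_add] at m4
  exact ⟨m4, m5⟩

end Pool.Agent.H66.ZK
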