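import Pool.Agent.H66.ZK.Stm
import Pool.Agent.H66.TK.Mov

/-! # Project ZK, part NTO -/

set_option autoImplicit false
set_option linter.unusedSimpArgs false

open Pool.Agent.Y720.MZ Pool.Agent.Q35.TT Pool.Agent.Q149.TT Pool.Agent.Q35.ZC Pool.Agent.H66.TK
  Pool.Agent.Q190.TT

namespace Pool.Agent.H66.ZK

theorem nto : S_NTO := by
  intro K _ _ α β w t h0 hcw hd hT
  obtain ⟨s, hs⟩ : ∃ s, s = sl α β w t := ⟨_, rfl⟩
  have hs' : cw α w ![1, t] * s + c1 α β w ![1, t] = 0 := by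
    rw [hs, sl]
    field_simp
    ring
  obtain ⟨m₀, hm₀⟩ : ∃ m, m = mm α β w ![1, t] s 1 := ⟨_, rfl⟩
  have hDD : DD α β w ![1, t] ≠ 0 := fun h => hT ⟨1, one_ne_zero, Or.inl h⟩
  have hm0 : m₀ ≠ 0 := by
    intro h
    apply hDD
    rw [DD_eq α β w t s hs', ← hm₀, h, mul_zero]
  have hF : m₀ ^ 2 = bq (gq α β w ![1, t]) ![1, s] := by
    rw [bq_gq α β w t s hs', hm₀]
  have hqt : qt α β w t = (m₀, tay (gq α β w ![1, t]) s) := by
    rw [qt, ← hs, ← hm₀]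
  rw [hqt]
  refine ⟨hm0, ?_, ?_⟩
  · show dsc (tay (gq α β w ![1, t]) s 1) (rb m₀ (tay (gq α β w ![1, t]) s 0)
      (tay (gq α β w ![1, t]) s 2) (tay (gq α β w ![1, t]) s 3))
      (rc m₀ (tay (gq α β w ![1, t]) s 0) (tay (gq α β w ![1, t]) s 1) (tay (gq α β w ![1, t]) s 2)
        (tay (gq α β w ![1, t]) s 3)) ≠ 0
    generalize gq α β w ![1, t] = a at hF hd
    have h1 := dq_eq m₀ (tay a s 0) (tay a s 1) (tay a s 2) (tay a s 3)
    rw [Pool.Agent.Y720.MZ.dq] at h1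
    rw [h1, hF]
    have h2 := dc_shift s (a 0) (a 1) (a 2) (a 3) (a 4)
    have h3 : dc (bq a ![1, s]) (tay a s 0) (tay a s 1) (tay a s 2) (tay a s 3) = dF a := by
      rw [dF, ← h2, bq_one]
      have e0 : tay a s 0 = a 1 + 2 * a 2 * s + 3 * a 3 * s ^ 2 + 4 * a 4 * s ^ 3 := rfl
      have e1 : tay a s 1 = a 2 + 3 * a 3 * s + 6 * a 4 * s ^ 2 := rfl
      have e2 : tay a s 2 = a 3 + 4 * a 4 * s := rfl
      have e3 : tay a s 3 = a 4 := rfl
      rw [e0, e1, e2, e3]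
      congr 1 <;> ring
    rw [h3]
    exact hd
  · intro h n hn h5
    refine hT ⟨n, hn, Or.inr ?_⟩
    have h6 : -(c1 α β w ![1, t]) / cw α w ![1, t] = s := by rw [hs, sl]
    rw [h6]
    have h1 := tws2 K (gq α β w ![1, t]) 1 s m₀ n one_ne_zero
    simp only [one_mul] at h1
    exact (h1.1 ⟨hm0, hF, hd, h, h5⟩).2.2

end Pool.Agent.H66.ZK
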