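import Pool.Agent.H66.ZK.Stm

/-! # Project ZK, part ROO -/

set_option autoImplicit false
set_option linter.unusedSimpArgs false

open Pool.Agent.Y720.MZ Pool.Agent.Q35.TT Pool.Agent.Q149.TT Pool.Agent.Q35.ZC Pool.Agent.H66.TK
open Filter Topology

namespace Pool.Agent.H66.ZK

section one
variable {L : Type} [NontriviallyNormedField L]

/-- the sum `x^(n-1) + ... + y^(n-1)` -/
def hh (n : ℕ) (x y : L) : L := ∑ k ∈ Finset.range n, x ^ k * y ^ (n - 1 - k)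

theorem hh_eq (n : ℕ) (x y : L) : hh n x y * (x - y) = x ^ n - y ^ n :=
  (Commute.all x y).geom_sum₂_mul n

/-- the polynomial `F` -/
def FP (a : Fin 3 → Fin 3 → L) (b : Fin 4 → Fin 4 → L) (f g : ℕ → L) (w : L) : L :=
  (∑ i : Fin 3, ∑ j : Fin 3, a i j * (f (i : ℕ) * g (j : ℕ))) * w +
    ∑ i : Fin 4, ∑ j : Fin 4, b i j * (f (i : ℕ) * g (j : ℕ))

theorem FF_FP (a : Fin 3 → Fin 3 → L) (b : Fin 4 → Fin 4 → L) (w t r : L) :
    FF a b w ![1, t] ![1, r] = w ^ 3 + FP a b (fun i => t ^ i) (fun j => r ^ j) w := by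
  simp [FF, cub, ax, bx, q2, q3, FP, Fin.sum_univ_succ]
  ring

theorem FP_sub (a : Fin 3 → Fin 3 → L) (b : Fin 4 → Fin 4 → L) (w t t' r r' : L) :
    FP a b (fun i => t' ^ i) (fun j => r' ^ j) w - FP a b (fun i => t ^ i) (fun j => r ^ j) w =
      FP a b (fun i => hh i t' t) (fun j => r' ^ j) w * (t' - t) +
        FP a b (fun i => t ^ i) (fun j => hh j r' r) w * (r' - r) := by
  have key : ∀ i j : ℕ, t' ^ i * r' ^ j = t ^ i * r ^ j + (hh i t' t * r' ^ j) * (t' - t) +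
      (t ^ i * hh j r' r) * (r' - r) := by
    intro i j
    have h1 := hh_eq i t' t
    have h2 := hh_eq j r' r
    linear_combination -r' ^ j * h1 - t ^ i * h2
  have k2 : ∀ (n : ℕ) (c : Fin n → Fin n → L), ∑ i : Fin n, ∑ j : Fin n, c i j * (t' ^ (i : ℕ) * r' ^ (j : ℕ)) =
      ∑ i : Fin n, ∑ j : Fin n, c i j * (t ^ (i : ℕ) * r ^ (j : ℕ)) +
      (∑ i : Fin n, ∑ j : Fin n, c i j * (hh i t' t * r' ^ (j : ℕ))) * (t' - t) +
      (∑ i : Fin n, ∑ j : Fin n, c i j * (t ^ (i : ℕ) * hh j r' r)) * (r' - r) := by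
    intro n c
    rw [Finset.sum_mul, Finset.sum_mul, ← Finset.sum_add_distrib, ← Finset.sum_add_distrib]
    refine Finset.sum_congr rfl fun i _ => ?_
    rw [Finset.sum_mul, Finset.sum_mul, ← Finset.sum_add_distrib, ← Finset.sum_add_distrib]
    refine Finset.sum_congr rfl fun j _ => ?_
    rw [key]
    ring
  simp only [FP]
  rw [k2, k2]
  ring

theorem hh_cont (n : ℕ) : Continuous fun p : L × L => hh n p.1 p.2 := by
  unfold hh
  fun_prop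

theorem FP_cont {X : Type} [TopologicalSpace X] (a : Fin 3 → Fin 3 → L) (b : Fin 4 → Fin 4 → L)
    (f g : X → ℕ → L) (w : X → L) (hf : ∀ n, Continuous fun x => f x n)
    (hg : ∀ n, Continuous fun x => g x n) (hw : Continuous w) :
    Continuous fun x => FP a b (f x) (g x) (w x) := by
  unfold FP
  fun_prop

/-- the local statement at one place -/
theorem roo_one (a : Fin 3 → Fin 3 → L) (b : Fin 4 → Fin 4 → L) (P : L × L × L)
    (h2 : Fw a P.1 ![1, P.2.1] ![1, P.2.2] ≠ 0) : ∃ ε : ℝ, 0 < ε ∧ ∃ C : ℝ, 0 < C ∧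
    ∀ q q' : L × L × L,
      FF a b q.1 ![1, q.2.1] ![1, q.2.2] = 0 → FF a b q'.1 ![1, q'.2.1] ![1, q'.2.2] = 0 →
      (‖q.1 - P.1‖ < ε ∧ ‖q.2.1 - P.2.1‖ < ε ∧ ‖q.2.2 - P.2.2‖ < ε) →
      (‖q'.1 - P.1‖ < ε ∧ ‖q'.2.1 - P.2.1‖ < ε ∧ ‖q'.2.2 - P.2.2‖ < ε) →
      ‖q.1 - q'.1‖ ≤ C * (‖q.2.1 - q'.2.1‖ + ‖q.2.2 - q'.2.2‖) := by
  -- the three continuous functions
  set S : (L × L × L) × (L × L × L) → L := fun p => p.1.1 ^ 2 + p.1.1 * p.2.1 + p.2.1 ^ 2 +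
    ∑ i : Fin 3, ∑ j : Fin 3, a i j * (p.2.2.1 ^ (i : ℕ) * p.2.2.2 ^ (j : ℕ)) with hS
  set G₁ : (L × L × L) × (L × L × L) → L := fun p =>
    FP a b (fun i => hh i p.2.2.1 p.1.2.1) (fun j => p.2.2.2 ^ j) p.1.1 with hG₁
  set G₂ : (L × L × L) × (L × L × L) → L := fun p =>
    FP a b (fun i => p.1.2.1 ^ i) (fun j => hh j p.2.2.2 p.1.2.2) p.1.1 with hG₂
  have cS : Continuous S := by
    rw [hS]
    fun_prop
  have c1 : Continuous G₁ := by
    rw [hG₁]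
    refine FP_cont a b _ _ _ (fun n => ?_) (fun n => by fun_prop) (by fun_prop)
    exact (hh_cont n).comp (f := fun p : (L × L × L) × (L × L × L) => (p.2.2.1, p.1.2.1))
      (by fun_prop)
  have c2 : Continuous G₂ := by
    rw [hG₂]
    refine FP_cont a b _ _ _ (fun n => by fun_prop) (fun n => ?_) (by fun_prop)
    exact (hh_cont n).comp (f := fun p : (L × L × L) × (L × L × L) => (p.2.2.2, p.1.2.2))
      (by fun_prop)
  have hSP : S (P, P) = Fw a P.1 ![1, P.2.1] ![1, P.2.2] := by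
    simp [hS, Fw, cw, ax, q2, Fin.sum_univ_succ]
    ring
  have hc : 0 < ‖S (P, P)‖ := by
    rw [hSP]
    exact norm_pos_iff.2 h2
  have e1 : ∀ᶠ p in 𝓝 (P, P), ‖S (P, P)‖ / 2 < ‖S p‖ :=
    (cS.norm.continuousAt).eventually (lt_mem_nhds (half_lt_self hc))
  have e2 : ∀ᶠ p in 𝓝 (P, P), ‖G₁ p‖ < ‖G₁ (P, P)‖ + 1 :=
    (c1.norm.continuousAt).eventually (gt_mem_nhds (lt_add_one _))
  have e3 : ∀ᶠ p in 𝓝 (P, P), ‖G₂ p‖ < ‖G₂ (P, P)‖ + 1 :=
    (c2.norm.continuousAt).eventually (gt_mem_nhds (lt_add_one _))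
  obtain ⟨ε, hε, hb⟩ := Metric.eventually_nhds_iff_ball.1 (e1.and (e2.and e3))
  set M : ℝ := max (‖G₁ (P, P)‖ + 1) (‖G₂ (P, P)‖ + 1) with hM
  have hM0 : 0 < M := lt_max_of_lt_left (by positivity)
  refine ⟨ε, hε, M / (‖S (P, P)‖ / 2), by positivity, fun q q' h1 h1' hq hq' => ?_⟩
  obtain ⟨k1, k2, k3⟩ := hb (q, q') (by
    rw [Metric.mem_ball]
    simp only [Prod.dist_eq, max_lt_iff]
    rw [dist_eq_norm, dist_eq_norm, dist_eq_norm, dist_eq_norm, dist_eq_norm, dist_eq_norm]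
    exact ⟨hq, hq'⟩)
  rw [FF_FP] at h1 h1'
  have h3 := FP_sub a b q.1 q.2.1 q'.2.1 q.2.2 q'.2.2
  have h4 : (q.1 - q'.1) * S (q, q') = G₁ (q, q') * (q'.2.1 - q.2.1) + G₂ (q, q') * (q'.2.2 - q.2.2) := by
    rw [hG₁, hG₂]
    simp only
    rw [← h3]
    have h5 : FP a b (fun i => q'.2.1 ^ i) (fun j => q'.2.2 ^ j) q.1 =
        FP a b (fun i => q'.2.1 ^ i) (fun j => q'.2.2 ^ j) q'.1 +
          (∑ i : Fin 3, ∑ j : Fin 3, a i j * (q'.2.1 ^ (i : ℕ) * q'.2.2 ^ (j : ℕ))) *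
            (q.1 - q'.1) := by
      simp only [FP]
      ring
    rw [h5]
    simp only [hS]
    linear_combination h1 - h1'
  have h6 : ‖q.1 - q'.1‖ * ‖S (q, q')‖ ≤ M * (‖q.2.1 - q'.2.1‖ + ‖q.2.2 - q'.2.2‖) := by
    rw [← norm_mul, h4]
    refine (norm_add_le _ _).trans ?_
    rw [norm_mul, norm_mul, mul_add, norm_sub_rev q'.2.1, norm_sub_rev q'.2.2]
    gcongr
    · exact k2.le.trans (le_max_left _ _)
    · exact k3.le.trans (le_max_right _ _)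
  rw [div_mul_eq_mul_div, le_div_iff₀ (by positivity)]
  refine le_trans ?_ h6
  gcongr

end one

theorem roo : S_ROO := by
  intro K _ _ V _ L _ s a b P hP
  choose ε hε C hC h using fun v => roo_one (ex (s v) a) (ex (s v) b) (P v) (hP v).2
  have := Fintype.ofFinite V
  by_cases hV : IsEmpty V
  · exact ⟨1, one_pos, fun η hη => ⟨1, one_pos, fun v => (hV.false v).elim⟩⟩
  rw [not_isEmpty_iff] at hV
  obtain ⟨v₁, hv₁⟩ := Finite.exists_min ε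
  obtain ⟨v₂, hv₂⟩ := Finite.exists_max C
  refine ⟨ε v₁, hε v₁, fun η hη => ⟨η / (2 * C v₂), div_pos hη (mul_pos two_pos (hC v₂)), ?_⟩⟩
  intro v q q' h1 h2 h3 h4 h5 h6
  have h7 := h v q q' h1 h2 ⟨h3.1.trans_le (hv₁ v), h3.2.1.trans_le (hv₁ v), h3.2.2.trans_le (hv₁ v)⟩
    ⟨h4.1.trans_le (hv₁ v), h4.2.1.trans_le (hv₁ v), h4.2.2.trans_le (hv₁ v)⟩
  have h8 : C v * (‖q.2.1 - q'.2.1‖ + ‖q.2.2 - q'.2.2‖) ≤
      C v₂ * (‖q.2.1 - q'.2.1‖ + ‖q.2.2 - q'.2.2‖) := by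
    gcongr
    exact hv₂ v
  have h9 : C v₂ * (‖q.2.1 - q'.2.1‖ + ‖q.2.2 - q'.2.2‖) < η := by
    have h10 : ‖q.2.1 - q'.2.1‖ + ‖q.2.2 - q'.2.2‖ < η / C v₂ := by
      have : η / (2 * C v₂) + η / (2 * C v₂) = η / C v₂ := by
        field_simp
        norm_num
      linarith
    rw [lt_div_iff₀ (hC v₂)] at h10
    linarith
  linarith

end Pool.Agent.H66.ZK
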