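import Pool.Agent.H66.ZK.Cen
import Pool.Agent.H66.ZK.Dns
import Pool.Agent.H66.ZK.Mvi
import Pool.Agent.H66.ZK.Nto
import Pool.Agent.H66.ZK.Roo
import Pool.Agent.H66.TK.All
import Pool.Agent.H44.ZK.CLS
import Pool.Agent.H37.ZK.Drl
import Pool.Agent.H37.ZK.Dgn
import Pool.Agent.H27.ZK.GSM
import Pool.Agent.H97.ZK.Nod
import Pool.Agent.H29.ZK.Sca
import Pool.Agent.H26.ZK.Smc
import Pool.Agent.H50.ZK.TGT
import Pool.Agent.H28.ZK.Scb

/-!
# Project ZK: all parts together (helper66)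
-/

set_option autoImplicit false
set_option linter.unusedSimpArgs false
set_option linter.unusedSectionVars false

open Pool.Agent.Y720.MZ Pool.Agent.Q35.TT Pool.Agent.Q149.TT Pool.Agent.Q35.ZC
open MvPolynomial (eval)

namespace Pool.Agent.H66.ZK

theorem nea0 : S_NEA :=
  nea nto (mvi tgt) (via roo) (dns roo) TK.tan0 TK.tbn0 (fin_of Pool.Agent.H27.ZK.gsm
    Pool.Agent.H26.ZK.smc)

theorem cls0 : S_CLS := Pool.Agent.H44.ZK.cls Pool.Agent.H29.ZK.sca scb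

theorem pt_eq {E : Type} [Field E] (e₁ e₂ : Bool) (l m w t r : E) :
    TK.pt e₁ e₂ l m w t r = scale l m (p5 e₁ e₂ w ![1, t] ![1, r]) := by
  funext i
  cases e₁ <;> cases e₂ <;> fin_cases i <;> simp [TK.pt, scale, p5, TK.sw]

theorem eval_dF {K : Type} [Field K] (a : Fin 3 → Fin 3 → K) (b : Fin 4 → Fin 4 → K)
    (p : Fin 5 → K) : eval p (MvPolynomial.pderiv 0 (F a b)) =
      TK.Fw a (p 0) ![p 1, p 2] ![p 3, p 4] := by
  rw [F_eq]
  simp [TK.eqn, TK.FF, TK.Fw, TK.cw, TK.cub, TK.ax, TK.bx, TK.q2, TK.q3, TK.ex,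
    MvPolynomial.pderiv_X]

theorem near (K : Type) [Field K] [NumberField K] (a : Fin 3 → Fin 3 → K) (b : Fin 4 → Fin 4 → K)
    (hab : TK.Good a b) : ∃ T : Set (Fin 5 → K), T.Finite ∧ ∀ P : Fin 5 → K, IsPoint P →
      eval P (F a b) = 0 → eval P (MvPolynomial.pderiv 0 (F a b)) ≠ 0 →
      (∀ q ∈ T, ∀ l m : K, P ≠ scale l m q) →
      DenseNear (F a b) (Multiples (F a b) P) P := by
  choose T hT hN using fun e : Bool × Bool =>
    nea0 K (TK.chA e.1 e.2 a) (TK.chA e.1 e.2 b) (hab.ch e.1 e.2)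
  refine ⟨⋃ e, (fun z : K × K × K => p5 e.1 e.2 z.1 ![1, z.2.1] ![1, z.2.2]) '' T e,
    Set.finite_iUnion fun e => (hT e).image _, ?_⟩
  intro P hP hP0 hPw hPT
  obtain ⟨e₁, e₂, l, m, w, t, r, hl, hm, hPe⟩ := TK.cover (p := P) hP
  have hlm : l * m ≠ 0 := mul_ne_zero hl hm
  have hF : TK.FF (TK.chA e₁ e₂ a) (TK.chA e₁ e₂ b) w ![1, t] ![1, r] = 0 := by
    rw [eval_F, hPe, TK.FF_pt] at hP0
    exact (mul_eq_zero.1 hP0).resolve_left (pow_ne_zero 3 hlm)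
  have hFw : TK.Fw (TK.chA e₁ e₂ a) w ![1, t] ![1, r] ≠ 0 := by
    rw [eval_dF, hPe, TK.Fw_pt] at hPw
    exact right_ne_zero_of_mul hPw
  rw [pt_eq] at hPe
  have hz : (w, t, r) ∉ T (e₁, e₂) := fun h =>
    hPT _ (Set.mem_iUnion.2 ⟨(e₁, e₂), (w, t, r), h, rfl⟩) l m hPe
  have hRP : p5 e₁ e₂ w ![1, t] ![1, r] ∈ Multiples (F a b) P := by
    obtain ⟨z, hz⟩ := exists_sec hab.line₁ e₁ e₂ hF hFw
    refine ⟨isPt5 e₁ e₂ w t r, ?_, 0, z, hz, ?_⟩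
    · rw [eval_p5]
      exact hF
    · rw [← mk_eq, hPe, mul_zero, zero_add, one_smul, zero_smul, sub_zero, mk_scale _ _ hl hm]
  have hx := cld_x (a := a) (b := b) cls0 e₁ e₂ P
  have hy := cld_y (a := a) (b := b) cls0 e₁ e₂ P
  intro ι _ _ p _ hinj σ
  have key : ∀ (V : Type) [Finite V] [Nonempty V] (L : V → Type)
      [∀ v, NontriviallyNormedField (L v)] [∀ v, CompleteSpace (L v)] [∀ v, CharZero (L v)]
      (s : ∀ v, K →+* L v), HWR s →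
      ∃ U ∈ nhds (fun v => (fun j => s v (P j) : Fin 5 → L v)),
      ∀ S ∈ U, (∀ v, MvPolynomial.eval₂ (s v) (S v) (F a b) = 0) →
        S ∈ closure {S | ∃ Q ∈ Multiples (F a b) P, ∀ v, S v ∈ coords (s v) Q} := by
    intro V _ _ L _ _ _ s hs
    obtain ⟨U, hU, h⟩ := dgn K a b V L s e₁ e₂ w t r l m hl hm hF hFw _
      (hN (e₁, e₂) w t r hz hF hFw V L s hs _ hx hy hRP)
    rw [hPe]
    refine ⟨U, hU, fun S hS h1 => closure_mono ?_ (h S hS h1)⟩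
    rintro S ⟨z, h2, h3⟩
    rw [← hPe]
    exact ⟨_, h2, h3⟩
  refine ⟨key ι (fun v => ℚ_[p v]) σ (hw_pR hinj σ), fun τ => ?_⟩
  exact drl K _ _ _ ι p σ τ (key (Option ι) (Lv p) (sv σ τ) (hw_allR hinj σ τ))

end Pool.Agent.H66.ZK
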