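import Pool.Agent.H66.ZK.Stm
import Pool.Agent.H66.TK.PrjA

/-!
# Project ZK: the density theorem on the affine surface, from the parts (helper66)
-/

set_option autoImplicit false
set_option linter.unusedSectionVars false
set_option linter.unusedSimpArgs false

open Pool.Agent.Y720.MZ Pool.Agent.Q35.TT Pool.Agent.Q149.TT Pool.Agent.Q35.ZC Pool.Agent.H66.TK

namespace Pool.Agent.H66.ZK

/-- FIN: only finitely many of the quartic curves in the direction `x` are singular. -/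
def S_FIN : Prop :=
  ∀ (K : Type) [Field K] [CharZero K] (a : Fin 3 → Fin 3 → K) (b : Fin 4 → Fin 4 → K), Good a b →
    {r : K | ∃ w t : K, FF a b w ![1, t] ![1, r] = 0 ∧ Fw a w ![1, t] ![1, r] ≠ 0 ∧
      dF (gq (ax a ![1, r]) (bx b ![1, r]) w ![1, t]) = 0}.Finite

/-- NEA: the density theorem. -/
def S_NEA : Prop :=
  ∀ (K : Type) [Field K] [NumberField K] (a : Fin 3 → Fin 3 → K) (b : Fin 4 → Fin 4 → K),
    Good a b → ∃ T : Set (K × K × K), T.Finite ∧ ∀ w t r : K, (w, t, r) ∉ T →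
      FF a b w ![1, t] ![1, r] = 0 → Fw a w ![1, t] ![1, r] ≠ 0 →
      ∀ (V : Type) [Finite V] [Nonempty V] (L : V → Type) [∀ v, NontriviallyNormedField (L v)]
        [∀ v, CompleteSpace (L v)] [∀ v, CharZero (L v)] (s : ∀ v, K →+* L v), HWR s →
        ∀ R : K × K × K → Prop, Cld a b R → Cld (tr a) (tr b) (fun z => R (sp z)) →
          R (w, t, r) → ∃ ε : ℝ, 0 < ε ∧ ∀ q : ∀ v, L v × L v × L v, OnL s a b q →
            (∀ v, ‖(q v).1 - s v w‖ < ε ∧ ‖(q v).2.1 - s v t‖ < ε ∧ ‖(q v).2.2 - s v r‖ < ε) →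
            ∀ η : ℝ, 0 < η → ∃ z, R z ∧ Nr s η z q

section maps

variable {K E : Type} [Field K] [Field E] (τ : K →+* E)

theorem vec_map (t : K) : (fun i => τ ((![1, t] : Fin 2 → K) i)) = ![1, τ t] := by
  funext i
  fin_cases i
  · simp
  · rfl

theorem q2_mp (c : Fin 3 → K) (x : Fin 2 → K) :
    τ (q2 c x) = q2 (fun i => τ (c i)) (fun i => τ (x i)) := by
  simp only [q2, map_add, map_mul, map_pow]

theorem q3_mp (c : Fin 4 → K) (x : Fin 2 → K) :
    τ (q3 c x) = q3 (fun i => τ (c i)) (fun i => τ (x i)) := by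
  simp only [q3, map_add, map_mul, map_pow]

theorem ax_mp (a : Fin 3 → Fin 3 → K) (r : K) :
    (fun i => τ (ax a ![1, r] i)) = ax (ex τ a) ![1, τ r] := by
  funext i
  simp only [ax, q2_mp]
  rw [vec_map]

theorem bx_mp (b : Fin 4 → Fin 4 → K) (r : K) :
    (fun i => τ (bx b ![1, r] i)) = bx (ex τ b) ![1, τ r] := by
  funext i
  simp only [bx, q3_mp]
  rw [vec_map]

theorem cub_mp (α : Fin 3 → K) (β : Fin 4 → K) (w t : K) : τ (cub α β w ![1, t]) =
    cub (fun i => τ (α i)) (fun i => τ (β i)) (τ w) ![1, τ t] := by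
  simp only [cub, map_add, map_mul, map_pow, q2_mp, q3_mp]
  rw [vec_map]

theorem cw_mp (α : Fin 3 → K) (w t : K) : τ (cw α w ![1, t]) =
    cw (fun i => τ (α i)) (τ w) ![1, τ t] := by
  simp only [cw, map_add, map_mul, map_pow, q2_mp, map_ofNat]
  rw [vec_map]

theorem c1_mp (α : Fin 3 → K) (β : Fin 4 → K) (w t : K) : τ (c1 α β w ![1, t]) =
    c1 (fun i => τ (α i)) (fun i => τ (β i)) (τ w) ![1, τ t] := by
  simp [c1, map_ofNat]

theorem mm_mp (α : Fin 3 → K) (β : Fin 4 → K) (w t u v : K) : τ (mm α β w ![1, t] u v) =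
    mm (fun i => τ (α i)) (fun i => τ (β i)) (τ w) ![1, τ t] (τ u) (τ v) := by
  simp [mm, map_ofNat]

theorem nn_mp (α : Fin 3 → K) (β : Fin 4 → K) (u v : K) : τ (nn α β u v) =
    nn (fun i => τ (α i)) (fun i => τ (β i)) (τ u) (τ v) := by
  simp [nn]

theorem gq_mp (α : Fin 3 → K) (β : Fin 4 → K) (w t : K) (i : Fin 5) :
    τ (gq α β w ![1, t] i) = gq (fun i => τ (α i)) (fun i => τ (β i)) (τ w) ![1, τ t] i := by
  fin_cases i <;> simp [gq, c1, cw, q2, map_ofNat]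

theorem sl_mp (α : Fin 3 → K) (β : Fin 4 → K) (w t : K) : τ (sl α β w t) =
    sl (fun i => τ (α i)) (fun i => τ (β i)) (τ w) (τ t) := by
  rw [sl, sl, map_div₀, map_neg, c1_mp, cw_mp]

theorem tay_mp (a : Fin 5 → K) (s : K) (i : Fin 4) :
    τ (tay a s i) = tay (fun i => τ (a i)) (τ s) i := by
  fin_cases i <;> simp [tay, map_ofNat]

/-- the quartic curve over an extension -/
theorem qt_mp (α : Fin 3 → K) (β : Fin 4 → K) (w t : K) :
    qt (fun i => τ (α i)) (fun i => τ (β i)) (τ w) (τ t) =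
      (τ (qt α β w t).1, fun j => τ ((qt α β w t).2 j)) := by
  unfold qt
  ext1
  · show mm (fun i => τ (α i)) (fun i => τ (β i)) (τ w) ![1, τ t]
      (sl (fun i => τ (α i)) (fun i => τ (β i)) (τ w) (τ t)) 1 = τ (mm α β w ![1, t] (sl α β w t) 1)
    rw [mm_mp, sl_mp, map_one]
  · funext j
    show tay (gq (fun i => τ (α i)) (fun i => τ (β i)) (τ w) ![1, τ t])
      (sl (fun i => τ (α i)) (fun i => τ (β i)) (τ w) (τ t)) j =
        τ (tay (gq α β w ![1, t]) (sl α β w t) j)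
    rw [tay_mp, sl_mp]
    congr 1
    funext i
    exact (gq_mp τ α β w t i).symm

theorem FF_mp (a : Fin 3 → Fin 3 → K) (b : Fin 4 → Fin 4 → K) (w t r : K) :
    FF (ex τ a) (ex τ b) (τ w) ![1, τ t] ![1, τ r] = τ (FF a b w ![1, t] ![1, r]) := by
  rw [FF, FF, cub_mp, ax_mp, bx_mp]

theorem Fw_mp (a : Fin 3 → Fin 3 → K) (w t r : K) :
    Fw (ex τ a) (τ w) ![1, τ t] ![1, τ r] = τ (Fw a w ![1, t] ![1, r]) := by
  rw [Fw, Fw, cw_mp, ax_mp]

end maps

theorem fin_of (hG : S_GSM) (hS : S_SMC) : S_FIN := by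
  intro K _ _ a b hab
  refine (hG K a b hab.smooth hab.line₁).subset ?_
  rintro r ⟨w, t, h1, h2, h3⟩
  have hv : (![1, algebraMap K (AlgebraicClosure K) r] : Fin 2 → AlgebraicClosure K) ≠ 0 := by
    intro h
    exact one_ne_zero (congrFun h 0)
  obtain ⟨w', x, hx, k1, k2, k3, k4⟩ := hS K (ax a ![1, r]) (bx b ![1, r]) w t h1 h2 h3 (by
    intro l m
    obtain ⟨x, hx⟩ := hab.line₁ ![1, algebraMap K _ r] hv l m
    refine ⟨x, ?_⟩
    rw [ax_mp, bx_mp]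
    exact hx)
  rw [ax_mp, bx_mp] at k1 k3 k4
  rw [ax_mp] at k2
  exact ⟨w', x, hx, k1, k2, k3, k4⟩

section main

variable {K : Type} [Field K] {V : Type} {L : V → Type} [∀ v, NontriviallyNormedField (L v)]
  {s : ∀ v, K →+* L v} {a : Fin 3 → Fin 3 → K} {b : Fin 4 → Fin 4 → K}

theorem Mve.mva {R : K × K × K → Prop} {P : ∀ v, L v × L v × L v} (h : Mve s R P) : Mva s R P := by
  intro ε hε
  obtain ⟨δ, hδ, h1⟩ := h ε hε
  refine ⟨δ, hδ, fun z hz hn t ht η hη => ?_⟩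
  obtain ⟨z', k1, k2, k3⟩ := h1 z hz hn t ht η hη
  refine ⟨z', k1, fun v => ⟨?_, (k3 v).1, (k3 v).2⟩⟩
  rw [k2, sub_self, norm_zero]
  exact hη

/-- the local point given by a rational point -/
def im (s : ∀ v, K →+* L v) (z : K × K × K) : ∀ v, L v × L v × L v :=
  fun v => (s v z.1, s v z.2.1, s v z.2.2)

theorem OnL.im {w t r : K} (h1 : FF a b w ![1, t] ![1, r] = 0) (h2 : Fw a w ![1, t] ![1, r] ≠ 0) :
    OnL s a b (im s (w, t, r)) := by
  intro v
  refine ⟨?_, ?_⟩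
  · show FF (ex (s v) a) (ex (s v) b) (s v w) ![1, s v t] ![1, s v r] = 0
    rw [FF_mp, h1, map_zero]
  · show Fw (ex (s v) a) (s v w) ![1, s v t] ![1, s v r] ≠ 0
    rw [Fw_mp]
    exact (map_ne_zero (s v)).2 h2

theorem tr_ex {E : Type} [Field E] (τ : K →+* E) {k : ℕ} (a : Fin k → Fin k → K) :
    tr (ex τ a) = ex τ (tr a) := rfl

theorem OnL.sp {P : ∀ v, L v × L v × L v} (h : OnL s a b P) :
    OnL s (tr a) (tr b) fun v => sp (P v) := by
  intro v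
  obtain ⟨h1, h2⟩ := h v
  refine ⟨?_, ?_⟩
  · show FF (tr (ex (s v) a)) (tr (ex (s v) b)) (P v).1 ![1, (P v).2.2] ![1, (P v).2.1] = 0
    rw [FF_tr]
    exact h1
  · show Fw (tr (ex (s v) a)) (P v).1 ![1, (P v).2.2] ![1, (P v).2.1] ≠ 0
    rw [Fw_tr]
    exact h2

variable [NumberField K] [Finite V] [∀ v, CompleteSpace (L v)] [∀ v, CharZero (L v)]

/-- moves in the direction `x` at a rational point without torsion -/
theorem mve_rat (hN : S_NTO) (hM : S_MVI) (hs : HWR s) {R : K × K × K → Prop} (hR : Cld a b R)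
    {w t r : K} (h1 : FF a b w ![1, t] ![1, r] = 0) (h2 : Fw a w ![1, t] ![1, r] ≠ 0)
    (h3 : dF (gq (ax a ![1, r]) (bx b ![1, r]) w ![1, t]) ≠ 0) (h4 : ¬ TFx a b w t r) :
    Mve s R (im s (w, t, r)) := by
  obtain ⟨k1, k2⟩ := hN K (ax a ![1, r]) (bx b ![1, r]) w t h1 h2 h3 h4
  refine hM K V L s hs a b R hR _ (OnL.im h1 h2) fun v => ?_
  show (qt (ax (ex (s v) a) ![1, s v r]) (bx (ex (s v) b) ![1, s v r]) (s v w) (s v t)).1 ≠ 0 ∧
    IOt (qt (ax (ex (s v) a) ![1, s v r]) (bx (ex (s v) b) ![1, s v r]) (s v w) (s v t))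
  rw [← ax_mp, ← bx_mp, qt_mp]
  exact ⟨(map_ne_zero (s v)).2 k1, io_map (s v) k2⟩

/-- infinitely many rational points on the plane cubic close to `P` -/
theorem inf_of [Nonempty V] {R : K × K × K → Prop} {w t r : K} (hR : R (w, t, r))
    (h : Mve s R (im s (w, t, r))) {δ : ℝ} (hδ : 0 < δ) :
    {t' : K | (∀ v, ‖s v t' - s v t‖ < δ) ∧ ∃ w' : K, (∀ v, ‖s v w' - s v w‖ < δ) ∧
      R (w', t', r)}.Infinite := by
  intro hfin
  obtain ⟨δ₁, hδ₁, h1⟩ := h δ hδ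
  obtain ⟨v₀⟩ := (inferInstance : Nonempty V)
  have hρ : 0 < min (δ / 2) δ₁ := lt_min (half_pos hδ) hδ₁
  -- a target at a positive distance
  have hfin2 : ((s v₀) '' {t' : K | (∀ v, ‖s v t' - s v t‖ < δ) ∧ ∃ w' : K,
      (∀ v, ‖s v w' - s v w‖ < δ) ∧ R (w', t', r)}).Finite := hfin.image _
  have hball : (Metric.ball (s v₀ t) (min (δ / 2) δ₁)).Infinite := infinite_of_mem_nhds (s v₀ t)
    (Metric.ball_mem_nhds _ hρ)
  obtain ⟨ξ, hξ1, hξ2⟩ := (hball.sdiff hfin2).nonempty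
  have hcl : IsClosed ((s v₀) '' {t' : K | (∀ v, ‖s v t' - s v t‖ < δ) ∧ ∃ w' : K,
      (∀ v, ‖s v w' - s v w‖ < δ) ∧ R (w', t', r)}) := hfin2.isClosed
  obtain ⟨η, hη, hηb⟩ := Metric.isOpen_iff.1 hcl.isOpen_compl ξ hξ2
  classical
  obtain ⟨z', k1, k2, k3⟩ := h1 (w, t, r) hR (fun v => by
      show ‖s v w - s v w‖ < δ₁ ∧ ‖s v t - s v t‖ < δ₁ ∧ ‖s v r - s v r‖ < δ₁
      simp [hδ₁])
    (fun v => if h : v = v₀ then h ▸ ξ else s v t) (fun v => by
      by_cases hv : v = v₀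
      · subst hv
        simp only [dif_pos]
        show ‖ξ - s v t‖ < δ₁
        rw [← dist_eq_norm]
        exact (Metric.mem_ball.1 hξ1).trans_le (min_le_right _ _)
      · simp only [dif_neg hv]
        show ‖s v t - s v t‖ < δ₁
        simp [hδ₁]) (min η (δ / 2)) (lt_min hη (half_pos hδ))
  obtain ⟨w', t', r'⟩ := z'
  have hr : r' = r := k2
  subst hr
  refine (hηb (a := s v₀ t') ?_) ?_
  · have := (k3 v₀).1
    simp only [dif_pos] at this
    rw [Metric.mem_ball, dist_eq_norm]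
    exact this.trans_le (min_le_left _ _)
  · refine ⟨t', ⟨fun v => ?_, w', fun v => (k3 v).2, k1⟩, rfl⟩
    by_cases hv : v = v₀
    · subst hv
      have h5 := (k3 v).1
      simp only [dif_pos] at h5
      have h6 := (Metric.mem_ball.1 hξ1).trans_le (min_le_left _ _)
      rw [dist_eq_norm] at h6
      have h7 := norm_sub_le_norm_sub_add_norm_sub (s v t') ξ (s v t)
      have h8 := h5.trans_le (min_le_right _ _)
      change ‖s v t' - ξ‖ < δ / 2 at h8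
      linarith
    · have h5 := (k3 v).1
      simp only [dif_neg hv] at h5
      have h8 := h5.trans_le (min_le_right _ _)
      change ‖s v t' - s v t‖ < δ / 2 at h8
      linarith

/-- density, if there is no torsion in the direction `x` -/
theorem near_x (hN : S_NTO) (hM : S_MVI) (hV : S_VIA) (hD : S_DNS) (hB : TK.S_TBN) (hF : S_FIN)
    (hab : Good a b) [Nonempty V] (hs : HWR s) {R : K × K × K → Prop} (hR : Cld a b R)
    (hR' : Cld (tr a) (tr b) fun z => R (sp z)) {w t r : K} (hP : R (w, t, r))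
    (h2 : Fw a w ![1, t] ![1, r] ≠ 0)
    (h3 : dF (gq (ax a ![1, r]) (bx b ![1, r]) w ![1, t]) ≠ 0) (h4 : ¬ TFx a b w t r) :
    ∃ ε : ℝ, 0 < ε ∧ ∀ q : ∀ v, L v × L v × L v, OnL s a b q →
      (∀ v, ‖(q v).1 - s v w‖ < ε ∧ ‖(q v).2.1 - s v t‖ < ε ∧ ‖(q v).2.2 - s v r‖ < ε) →
      ∀ η : ℝ, 0 < η → ∃ z, R z ∧ Nr s η z q := by
  have h1 : FF a b w ![1, t] ![1, r] = 0 := hR.on _ hP
  have hon : OnL s a b (im s (w, t, r)) := OnL.im h1 h2
  have hx := mve_rat hN hM hs hR h1 h2 h3 h4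
  have hab' : Good (tr a) (tr b) := by
    refine ⟨?_, hab.line₂, hab.line₁⟩
    intro w x y hx hy h0 h1 h2 h3 h4 h5
    refine hab.smooth w y x hy hx ?_ ?_ h4 h5 h2 h3
    · rw [← FF_tr]
      exact h0
    · rw [← Fw_tr]
      exact h1
  -- the points which are bad for the direction `y`
  have hbad1 := (hB K a b hab.line₂ r).image Prod.snd
  have hbad2 := hF K (tr a) (tr b) hab'
  -- the derivative is not zero close to `P`
  obtain ⟨v₀⟩ := (inferInstance : Nonempty V)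
  have hcont : Continuous fun q : L v₀ × L v₀ => Fw (ex (s v₀) a) q.1 ![1, q.2] ![1, s v₀ r] := by
    have : (fun q : L v₀ × L v₀ => Fw (ex (s v₀) a) q.1 ![1, q.2] ![1, s v₀ r]) = fun q =>
        3 * q.1 ^ 2 + (ax (ex (s v₀) a) ![1, s v₀ r] 0 + ax (ex (s v₀) a) ![1, s v₀ r] 1 * q.2 +
          ax (ex (s v₀) a) ![1, s v₀ r] 2 * q.2 ^ 2) := by
      funext q
      simp [Fw, cw, q2]
    rw [this]
    fun_prop
  have hne : Fw (ex (s v₀) a) (s v₀ w) ![1, s v₀ t] ![1, s v₀ r] ≠ 0 := (hon v₀).2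
  obtain ⟨δ₀, hδ₀, hFw⟩ := Metric.eventually_nhds_iff_ball.1
    (hcont.continuousAt.eventually_ne (x := (s v₀ w, s v₀ t)) hne)
  have hy : Mvb s R (im s (w, t, r)) := by
    refine hV K V L s a b R hR.on _ hon hx.mva fun δ hδ => ?_
    have hinf := inf_of hP hx (lt_min hδ hδ₀)
    obtain ⟨t', ⟨g1, w', g2, g3⟩, g4⟩ := (hinf.sdiff (hbad1.union hbad2)).nonempty
    rw [Set.mem_union, not_or] at g4
    obtain ⟨g4, g5⟩ := g4
    have h1' : FF a b w' ![1, t'] ![1, r] = 0 := hR.on _ g3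
    have h2' : Fw a w' ![1, t'] ![1, r] ≠ 0 := by
      have h6 := hFw (s v₀ w', s v₀ t') (by
        rw [Metric.mem_ball, Prod.dist_eq, max_lt_iff, dist_eq_norm, dist_eq_norm]
        exact ⟨(g2 v₀).trans_le (min_le_right _ _), (g1 v₀).trans_le (min_le_right _ _)⟩)
      intro h7
      apply h6
      show Fw (ex (s v₀) a) (s v₀ w') ![1, s v₀ t'] ![1, s v₀ r] = 0
      rw [Fw_mp, h7, map_zero]
    have h1'' : FF (tr a) (tr b) w' ![1, r] ![1, t'] = 0 := (FF_tr a b w' _ _).trans h1'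
    have h2'' : Fw (tr a) w' ![1, r] ![1, t'] ≠ 0 := by
      rw [Fw_tr]
      exact h2'
    refine ⟨im s (w', t', r), OnL.im h1' h2', fun v => ⟨(g2 v).trans_le (min_le_left _ _),
      (g1 v).trans_le (min_le_left _ _), rfl⟩, ?_⟩
    have hm : Mve s (fun z => R (sp z)) (im s (w', r, t')) := by
      refine mve_rat hN hM hs hR' h1'' h2'' ?_ ?_
      · intro h7
        exact g5 ⟨w', r, h1'', h2'', h7⟩
      · intro h7
        exact g4 ⟨(w', t'), ⟨h1', h2', h7⟩, rfl⟩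
    exact hm.mva
  exact hD K V L s a b R hR.on _ hon hx.mva hy fun ε hε => ⟨(w, t, r), hP, fun v => by
    show ‖s v w - s v w‖ < ε ∧ ‖s v t - s v t‖ < ε ∧ ‖s v r - s v r‖ < ε
    simp [hε]⟩

end main

theorem w_fin {K : Type} [Field K] (a : Fin 3 → Fin 3 → K) (b : Fin 4 → Fin 4 → K) (t r : K) :
    {w : K | FF a b w ![1, t] ![1, r] = 0}.Finite := by
  classical
  set P : Polynomial K := Polynomial.X ^ 3 + Polynomial.C (q2 (ax a ![1, r]) ![1, t]) * Polynomial.X +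
    Polynomial.C (q3 (bx b ![1, r]) ![1, t]) with hP
  have hdeg : P.natDegree = 3 := by
    rw [hP]
    compute_degree!
  have hP0 : P ≠ 0 := by
    intro h
    rw [h, Polynomial.natDegree_zero] at hdeg
    omega
  refine (P.roots.toFinset.finite_toSet).subset fun w hw => ?_
  rw [Finset.mem_coe, Multiset.mem_toFinset, Polynomial.mem_roots hP0, Polynomial.IsRoot, hP]
  simp only [Polynomial.eval_add, Polynomial.eval_pow, Polynomial.eval_X, Polynomial.eval_mul,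
    Polynomial.eval_C]
  exact hw

theorem nea (hN : S_NTO) (hM : S_MVI) (hV : S_VIA) (hD : S_DNS) (hA : TK.S_TAN) (hB : TK.S_TBN)
    (hF : S_FIN) : S_NEA := by
  intro K _ _ a b hab
  have hab' : Good (tr a) (tr b) := by
    refine ⟨?_, hab.line₂, hab.line₁⟩
    intro w x y hx hy h0 h1 h2 h3 h4 h5
    refine hab.smooth w y x hy hx ?_ ?_ h4 h5 h2 h3
    · rw [← FF_tr]
      exact h0
    · rw [← Fw_tr]
      exact h1
  obtain ⟨E, hE⟩ : ∃ E, E = {r : K | ∃ w t : K, FF a b w ![1, t] ![1, r] = 0 ∧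
    Fw a w ![1, t] ![1, r] ≠ 0 ∧ dF (gq (ax a ![1, r]) (bx b ![1, r]) w ![1, t]) = 0} := ⟨_, rfl⟩
  obtain ⟨E', hE'⟩ : ∃ E, E = {t : K | ∃ w r : K, FF (tr a) (tr b) w ![1, r] ![1, t] = 0 ∧
    Fw (tr a) w ![1, r] ![1, t] ≠ 0 ∧
      dF (gq (ax (tr a) ![1, t]) (bx (tr b) ![1, t]) w ![1, r]) = 0} := ⟨_, rfl⟩
  have hEf : E.Finite := by
    rw [hE]
    exact hF K a b hab
  have hEf' : E'.Finite := by
    rw [hE']
    exact hF K (tr a) (tr b) hab'
  set T₀ : Set (K × K × K) := {z | FF a b z.1 ![1, z.2.1] ![1, z.2.2] = 0 ∧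
      Fw a z.1 ![1, z.2.1] ![1, z.2.2] ≠ 0 ∧ TFx a b z.1 z.2.1 z.2.2 ∧
      TFx (tr a) (tr b) z.1 z.2.2 z.2.1} with hT₀
  set T₁ : Set (K × K × K) := ⋃ r ∈ E, (fun z : K × K => (z.1, z.2, r)) ''
    {z : K × K | FF a b z.1 ![1, z.2] ![1, r] = 0 ∧ Fw a z.1 ![1, z.2] ![1, r] ≠ 0 ∧
      TFx (tr a) (tr b) z.1 r z.2} with hT₁
  set T₂ : Set (K × K × K) := ⋃ t ∈ E', (fun z : K × K => (z.1, t, z.2)) ''
    {z : K × K | FF (tr a) (tr b) z.1 ![1, z.2] ![1, t] = 0 ∧ Fw (tr a) z.1 ![1, z.2] ![1, t] ≠ 0 ∧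
      TFx a b z.1 t z.2} with hT₂
  set T₃ : Set (K × K × K) := ⋃ t ∈ E', ⋃ r ∈ E, (fun w : K => (w, t, r)) ''
    {w : K | FF a b w ![1, t] ![1, r] = 0} with hT₃
  have f0 : T₀.Finite := hA K a b hab
  have f1 : T₁.Finite := hEf.biUnion fun r _ => (hB K a b hab.line₂ r).image _
  have f2 : T₂.Finite := hEf'.biUnion fun t _ => (hB K (tr a) (tr b) hab.line₁ t).image _
  have f3 : T₃.Finite := hEf'.biUnion fun t _ => hEf.biUnion fun r _ => (w_fin a b t r).image _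
  refine ⟨T₀ ∪ T₁ ∪ T₂ ∪ T₃, ((f0.union f1).union f2).union f3, ?_⟩
  intro w t r hT h1 h2 V _ _ L _ _ _ s hs R hR hR' hP
  rw [Set.mem_union, Set.mem_union, Set.mem_union, not_or, not_or, not_or] at hT
  obtain ⟨⟨⟨n0, n1⟩, n2⟩, n3⟩ := hT
  have h1' : FF (tr a) (tr b) w ![1, r] ![1, t] = 0 := (FF_tr a b w _ _).trans h1
  have h2' : Fw (tr a) w ![1, r] ![1, t] ≠ 0 := by
    rw [Fw_tr]
    exact h2
  have key : (r ∉ E ∧ ¬ TFx a b w t r) ∨ (t ∉ E' ∧ ¬ TFx (tr a) (tr b) w r t) := by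
    by_cases hr : r ∈ E
    · right
      have ht : t ∉ E' := by
        intro ht
        apply n3
        rw [hT₃]
        exact Set.mem_iUnion₂.2 ⟨t, ht, Set.mem_iUnion₂.2 ⟨r, hr, w, h1, rfl⟩⟩
      refine ⟨ht, fun h => n1 ?_⟩
      rw [hT₁]
      exact Set.mem_iUnion₂.2 ⟨r, hr, (w, t), ⟨h1, h2, h⟩, rfl⟩
    · by_cases ht : t ∈ E'
      · left
        refine ⟨hr, fun h => n2 ?_⟩
        rw [hT₂]
        exact Set.mem_iUnion₂.2 ⟨t, ht, (w, r), ⟨h1', h2', h⟩, rfl⟩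
      · by_cases h : TFx a b w t r
        · right
          refine ⟨ht, fun h' => n0 ⟨h1, h2, h, h'⟩⟩
        · exact Or.inl ⟨hr, h⟩
  rcases key with ⟨k1, k2⟩ | ⟨k1, k2⟩
  · refine near_x hN hM hV hD hB hF hab hs hR hR' hP h2 ?_ k2
    intro h
    apply k1
    rw [hE]
    exact ⟨w, t, h1, h2, h⟩
  · obtain ⟨ε, hε, h5⟩ := near_x hN hM hV hD hB hF hab' hs hR' (R := fun z => R (sp z)) hR
      (w := w) (t := r) (r := t) hP h2' (by
        intro h
        apply k1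
        rw [hE']
        exact ⟨w, r, h1', h2', h⟩) k2
    refine ⟨ε, hε, fun q hq hn η hη => ?_⟩
    obtain ⟨z, hz, hz2⟩ := h5 (fun v => sp (q v)) hq.sp (fun v => ⟨(hn v).1, (hn v).2.2, (hn v).2.1⟩)
      η hη
    exact ⟨sp z, hz, fun v => ⟨(hz2 v).1, (hz2 v).2.2, (hz2 v).2.1⟩⟩

end Pool.Agent.H66.ZK
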