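import Pool.Agent.H66.TK.Stm
import Pool.Graph.R_pool_sql_team_seeded_3997aac3.Q35.ZC.Near
import Pool.Graph.R_pool_sql_team_seeded_3997aac3.Q35.ZC.All

/-!
# Zero-cycles and rational points on the K3 surfaces `w³ + A(x, y) w + B(x, y) = 0`: statements of the
parts (project ZK, helper66)

For a point `P = (w, (1, t))` of the plane cubic `C : w³ + α(x) w + β(x) = 0` with `∂/∂w ≠ 0` the lines
through `P` are `(w + z (s + τ), (1, t + z))`, where `s = sl α β w t` is the slope of the tangent. The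
equation of `C` on such a line is `z (cw τ + z M(τ) + z² N(τ)) = 0`, with `M(τ) = mm (s + τ) 1`,
`N(τ) = nn (s + τ) 1`, so `C` is the curve `Y² = M² - 4 cw τ N = q(τ)` (`Y = M + 2 z N`,
`z = -2 cw τ / (M + Y)`), and `P` is the point `τ = 0`, `Y = m₀ = M(0)`.
-/

set_option autoImplicit false

open Pool.Agent.Y720.MZ Pool.Agent.Q35.TT Pool.Agent.Q149.TT Pool.Agent.Q35.ZC Pool.Agent.H66.TK

namespace Pool.Agent.H66.ZK

section cubic

variable {F : Type} [Field F]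

/-- The slope of the tangent at `(w, (1, t))`. -/
def sl (α : Fin 3 → F) (β : Fin 4 → F) (w t : F) : F := -(c1 α β w ![1, t]) / cw α w ![1, t]

/-- The curve `Y² = m₀² + q₀ τ + q₁ τ² + q₂ τ³ + q₃ τ⁴` of the lines through `(w, (1, t))`. -/
def qt (α : Fin 3 → F) (β : Fin 4 → F) (w t : F) : F × (Fin 4 → F) :=
  (mm α β w ![1, t] (sl α β w t) 1, tay (gq α β w ![1, t]) (sl α β w t))

/-- `M + Y` at the point `(τ, Y)`. -/
def dn (α : Fin 3 → F) (β : Fin 4 → F) (w t τ Y : F) : F :=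
  mm α β w ![1, t] (sl α β w t + τ) 1 + Y

/-- The displacement `z` of the point `(τ, Y)`. -/
def zz (α : Fin 3 → F) (β : Fin 4 → F) (w t τ Y : F) : F :=
  -2 * (cw α w ![1, t] * τ) / dn α β w t τ Y

/-- The points `v 0, v 1, v 2` of the plane (with the coordinates `w, x₀, x₁`) are the intersection
points of the plane cubic with a line, with multiplicities: the cubic form on the line
`l e + m g` is `c ∏ (b_i l - a_i m)`, and `v i = a_i e + b_i g`. -/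
def Sec (α : Fin 3 → F) (β : Fin 4 → F) (v : Fin 3 → Fin 3 → F) : Prop :=
  ∃ (e g a b : Fin 3 → F) (c : F), LinearIndependent F ![e, g] ∧ c ≠ 0 ∧
    (∀ i, a i ≠ 0 ∨ b i ≠ 0) ∧ (∀ i j, v i j = a i * e j + b i * g j) ∧
    ∀ l m : F, cub α β (l * e 0 + m * g 0) ![l * e 1 + m * g 1, l * e 2 + m * g 2] =
      c * ((b 0 * l - a 0 * m) * (b 1 * l - a 1 * m) * (b 2 * l - a 2 * m))

/-- A function of the points of the plane cubic with values in a group (the class of the point), `f` is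
the class of the sections. -/
structure Cls (α : Fin 3 → F) (β : Fin 4 → F) {A : Type} [AddCommGroup A] (κ : (Fin 3 → F) → A)
    (f : A) : Prop where
  smul : ∀ (v : Fin 3 → F) (l : F), l ≠ 0 → κ (l • v) = κ v
  sec : ∀ v : Fin 3 → Fin 3 → F, Sec α β v → κ (v 0) + κ (v 1) + κ (v 2) = f

/-- The point `P`. -/
def p0 (w t : F) : Fin 3 → F := ![w, 1, t]

/-- The third point `T` of the tangent at `P`. -/
def p1 (α : Fin 3 → F) (β : Fin 4 → F) (w t : F) : Fin 3 → F :=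
  nn α β (sl α β w t) 1 • ![w, 1, t] + (-(qt α β w t).1) • ![sl α β w t, 0, 1]

/-- The point of the plane cubic for the point `(τ, Y)`. -/
noncomputable def ph (α : Fin 3 → F) (β : Fin 4 → F) (w t τ Y : F) : Fin 3 → F :=
  letI := Classical.decEq F
  if τ = 0 then (if Y = (qt α β w t).1 then p0 w t else p1 α β w t)
  else dn α β w t τ Y • ![w, 1, t] + (-2 * (cw α w ![1, t] * τ)) • ![sl α β w t + τ, 0, 1]

/-- The points over `τ = ∞`, `Y ~ c τ²`. -/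
def pf (w t c : F) : Fin 3 → F := ![c - w, 2, 2 * t]

end cubic

/-- SCA: the tangent and the other lines through `P`. -/
def S_SCA : Prop :=
  ∀ (F : Type) [Field F] [CharZero F] (α : Fin 3 → F) (β : Fin 4 → F) (w t : F),
    cub α β w ![1, t] = 0 → cw α w ![1, t] ≠ 0 → (qt α β w t).1 ≠ 0 →
    Sec α β ![p0 w t, p0 w t, p1 α β w t] ∧
    (∀ τ Y : F, Y ^ 2 = (qp (qt α β w t)).eval τ →
      Sec α β ![p0 w t, ph α β w t τ Y, ph α β w t τ (-Y)]) ∧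
    ∀ c : F, c ^ 2 = (qt α β w t).2 3 → Sec α β ![p0 w t, pf w t c, pf w t (-c)]

/-- SCB: the lines through `T`. -/
def S_SCB : Prop :=
  ∀ (F : Type) [Field F] [CharZero F] (α : Fin 3 → F) (β : Fin 4 → F) (w t : F),
    cub α β w ![1, t] = 0 → cw α w ![1, t] ≠ 0 → (qt α β w t).1 ≠ 0 →
    (∀ x τ₁ τ₂ κ : F, κ ≠ 0 → gp (qt α β w t) x ^ 2 - qp (qt α β w t) =
        Polynomial.C κ * Polynomial.X ^ 2 * (Polynomial.X - Polynomial.C τ₁) *
          (Polynomial.X - Polynomial.C τ₂) →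
      Sec α β ![p1 α β w t, ph α β w t τ₁ ((gp (qt α β w t) x).eval τ₁),
        ph α β w t τ₂ ((gp (qt α β w t) x).eval τ₂)]) ∧
    ∀ x τ₁ κ : F, κ ≠ 0 → gp (qt α β w t) x ^ 2 - qp (qt α β w t) =
        Polynomial.C κ * Polynomial.X ^ 2 * (Polynomial.X - Polynomial.C τ₁) →
      Sec α β ![p1 α β w t, ph α β w t τ₁ ((gp (qt α β w t) x).eval τ₁),
        pf w t (x / (2 * (qt α β w t).1))]

/-- CLS: the class of the points `P + m (P - T)`. -/
def S_CLS : Prop :=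
  ∀ (F : Type) [Field F] [CharZero F] (α : Fin 3 → F) (β : Fin 4 → F) (w t : F),
    cub α β w ![1, t] = 0 → cw α w ![1, t] ≠ 0 → (qt α β w t).1 ≠ 0 →
    ∀ (A : Type) [AddCommGroup A] (κ : (Fin 3 → F) → A) (f : A), Cls α β κ f →
      ∀ u Z : F, MulPt (qt α β w t) u Z → dn α β w t u Z ≠ 0 →
        ∃ m : ℤ, κ ![w + zz α β w t u Z * (sl α β w t + u), 1, t + zz α β w t u Z] =
          (3 * m + 1) • κ ![w, 1, t] - m • f

/-- NOD: the points of a singular plane cubic. -/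
def S_NOD : Prop :=
  ∀ (F : Type) [Field F] [IsAlgClosed F] [CharZero F] (α : Fin 3 → F) (β : Fin 4 → F),
    (∀ l m : F, ∃ x : Fin 2 → F, cub α β (l * x 0 + m * x 1) x ≠ 0) →
    ∀ (w₀ : F) (x₀ : Fin 2 → F), x₀ ≠ 0 → cub α β w₀ x₀ = 0 → cw α w₀ x₀ = 0 →
      c0 α β w₀ x₀ = 0 → c1 α β w₀ x₀ = 0 →
      ∀ (A : Type) [AddCommGroup A] (κ : (Fin 3 → F) → A) (f : A), Cls α β κ f →
        ∀ (w : F) (x : Fin 2 → F), x ≠ 0 → cub α β w x = 0 → (3 : ℤ) • κ ![w, x 0, x 1] = f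

/-- SMC: if the discriminant of the quartic form vanishes then the cubic is singular. -/
def S_SMC : Prop :=
  ∀ (K : Type) [Field K] [CharZero K] (α : Fin 3 → K) (β : Fin 4 → K) (w t : K),
    cub α β w ![1, t] = 0 → cw α w ![1, t] ≠ 0 → dF (gq α β w ![1, t]) = 0 →
    (∀ l m : AlgebraicClosure K, ∃ x : Fin 2 → AlgebraicClosure K,
      cub (fun i => algebraMap K _ (α i)) (fun i => algebraMap K _ (β i)) (l * x 0 + m * x 1) x ≠ 0) →
    ∃ (w' : AlgebraicClosure K) (x : Fin 2 → AlgebraicClosure K), x ≠ 0 ∧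
      cub (fun i => algebraMap K _ (α i)) (fun i => algebraMap K _ (β i)) w' x = 0 ∧
      cw (fun i => algebraMap K _ (α i)) w' x = 0 ∧
      c0 (fun i => algebraMap K _ (α i)) (fun i => algebraMap K _ (β i)) w' x = 0 ∧
      c1 (fun i => algebraMap K _ (α i)) (fun i => algebraMap K _ (β i)) w' x = 0

/-- GSM: only finitely many of the plane cubics in the direction `x` are singular. -/
def S_GSM : Prop :=
  ∀ (K : Type) [Field K] [CharZero K] (a : Fin 3 → Fin 3 → K) (b : Fin 4 → Fin 4 → K),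
    SmoothS a b → NoLine a b → {r : K | ∃ (w : AlgebraicClosure K) (x : Fin 2 → AlgebraicClosure K),
      x ≠ 0 ∧ cub (ax (ex (algebraMap K _) a) ![1, algebraMap K _ r])
        (bx (ex (algebraMap K _) b) ![1, algebraMap K _ r]) w x = 0 ∧
      cw (ax (ex (algebraMap K _) a) ![1, algebraMap K _ r]) w x = 0 ∧
      c0 (ax (ex (algebraMap K _) a) ![1, algebraMap K _ r])
        (bx (ex (algebraMap K _) b) ![1, algebraMap K _ r]) w x = 0 ∧
      c1 (ax (ex (algebraMap K _) a) ![1, algebraMap K _ r])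
        (bx (ex (algebraMap K _) b) ![1, algebraMap K _ r]) w x = 0}.Finite

/-- NTO: the difference of `P` and `T` has infinite order. -/
def S_NTO : Prop :=
  ∀ (K : Type) [Field K] [CharZero K] (α : Fin 3 → K) (β : Fin 4 → K) (w t : K),
    cub α β w ![1, t] = 0 → cw α w ![1, t] ≠ 0 → dF (gq α β w ![1, t]) ≠ 0 →
    (¬ ∃ n : ℕ, n ≠ 0 ∧ TF α β w t n) → (qt α β w t).1 ≠ 0 ∧ IOt (qt α β w t)

/-! ### Local points -/

/-- TGT: the lines from `P` to the points close to `P`, uniformly in the curve and in `P`. -/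
def S_TGT : Prop :=
  ∀ (L : Type) [NontriviallyNormedField L] [CompleteSpace L] [CharZero L] (α₀ : Fin 3 → L)
    (β₀ : Fin 4 → L) (w₀ t₀ : L), cub α₀ β₀ w₀ ![1, t₀] = 0 → cw α₀ w₀ ![1, t₀] ≠ 0 →
    (qt α₀ β₀ w₀ t₀).1 ≠ 0 → ∀ ε : ℝ, 0 < ε → ∃ δ : ℝ, 0 < δ ∧
      ∀ (α : Fin 3 → L) (β : Fin 4 → L) (w t : L), (∀ i, ‖α i - α₀ i‖ < δ) →
        (∀ i, ‖β i - β₀ i‖ < δ) → ‖w - w₀‖ < δ → ‖t - t₀‖ < δ → cub α β w ![1, t] = 0 →
        cw α w ![1, t] ≠ 0 ∧ ‖(qt α β w t).1 - (qt α₀ β₀ w₀ t₀).1‖ < ε ∧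
        (∀ i, ‖(qt α β w t).2 i - (qt α₀ β₀ w₀ t₀).2 i‖ < ε) ∧
        ∀ t' : L, ‖t' - t₀‖ < δ → ∃ τ Y : L, ‖τ‖ < ε ∧ ‖Y - (qt α₀ β₀ w₀ t₀).1‖ < ε ∧
          Y ^ 2 = qv (qt α β w t).1 (qt α β w t).2 τ ∧ dn α β w t τ Y ≠ 0 ∧
          t + zz α β w t τ Y = t' ∧ ‖w + zz α β w t τ Y * (sl α β w t + τ) - w₀‖ < ε

variable {K : Type} [Field K] {V : Type} {L : V → Type} [∀ v, NontriviallyNormedField (L v)]

/-- The point `z = (w, t, r)` is closer than `ε` to the local point `P`. -/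
def Nr (s : ∀ v, K →+* L v) (ε : ℝ) (z : K × K × K) (P : ∀ v, L v × L v × L v) : Prop :=
  ∀ v, ‖s v z.1 - (P v).1‖ < ε ∧ ‖s v z.2.1 - (P v).2.1‖ < ε ∧ ‖s v z.2.2 - (P v).2.2‖ < ε

/-- Exact moves in the direction `x` close to `P`, inside the set `R` of rational points. -/
def Mve (s : ∀ v, K →+* L v) (R : K × K × K → Prop) (P : ∀ v, L v × L v × L v) : Prop :=
  ∀ ε : ℝ, 0 < ε → ∃ δ : ℝ, 0 < δ ∧ ∀ z, R z → Nr s δ z P →
    ∀ t : ∀ v, L v, (∀ v, ‖t v - (P v).2.1‖ < δ) → ∀ η : ℝ, 0 < η →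
      ∃ z', R z' ∧ z'.2.2 = z.2.2 ∧ ∀ v, ‖s v z'.2.1 - t v‖ < η ∧ ‖s v z'.1 - (P v).1‖ < ε

/-- Approximate moves in the direction `x`. -/
def Mva (s : ∀ v, K →+* L v) (R : K × K × K → Prop) (P : ∀ v, L v × L v × L v) : Prop :=
  ∀ ε : ℝ, 0 < ε → ∃ δ : ℝ, 0 < δ ∧ ∀ z, R z → Nr s δ z P →
    ∀ t : ∀ v, L v, (∀ v, ‖t v - (P v).2.1‖ < δ) → ∀ η : ℝ, 0 < η →
      ∃ z', R z' ∧ ∀ v, ‖s v z'.2.2 - s v z.2.2‖ < η ∧ ‖s v z'.2.1 - t v‖ < η ∧
        ‖s v z'.1 - (P v).1‖ < ε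

/-- Exchange of `x` and `y`. -/
def sp {E : Type} (z : E × E × E) : E × E × E := (z.1, z.2.2, z.2.1)

/-- Approximate moves in the direction `y`. -/
def Mvb (s : ∀ v, K →+* L v) (R : K × K × K → Prop) (P : ∀ v, L v × L v × L v) : Prop :=
  Mva s (fun z => R (sp z)) fun v => sp (P v)

/-- The local points lie on the surface, off the ramification curve. -/
def OnL (s : ∀ v, K →+* L v) (a : Fin 3 → Fin 3 → K) (b : Fin 4 → Fin 4 → K)
    (P : ∀ v, L v × L v × L v) : Prop :=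
  ∀ v, FF (ex (s v) a) (ex (s v) b) (P v).1 ![1, (P v).2.1] ![1, (P v).2.2] = 0 ∧
    Fw (ex (s v) a) (P v).1 ![1, (P v).2.1] ![1, (P v).2.2] ≠ 0

/-- The set `R` of points of the surface is closed under the moves in the direction `x`. -/
structure Cld (a : Fin 3 → Fin 3 → K) (b : Fin 4 → Fin 4 → K) (R : K × K × K → Prop) : Prop where
  on : ∀ z, R z → FF a b z.1 ![1, z.2.1] ![1, z.2.2] = 0
  mv : ∀ w t r, R (w, t, r) → Fw a w ![1, t] ![1, r] ≠ 0 → ∀ u Z : K,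
    MulPt (qt (ax a ![1, r]) (bx b ![1, r]) w t) u Z →
    dn (ax a ![1, r]) (bx b ![1, r]) w t u Z ≠ 0 →
    R (w + zz (ax a ![1, r]) (bx b ![1, r]) w t u Z * (sl (ax a ![1, r]) (bx b ![1, r]) w t + u),
      t + zz (ax a ![1, r]) (bx b ![1, r]) w t u Z, r)

/-- ROO: the coordinate `w` is a continuous function of the other ones. -/
def S_ROO : Prop :=
  ∀ (K : Type) [Field K] [CharZero K] (V : Type) [Finite V] (L : V → Type)
    [∀ v, NontriviallyNormedField (L v)] (s : ∀ v, K →+* L v) (a : Fin 3 → Fin 3 → K)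
    (b : Fin 4 → Fin 4 → K) (P : ∀ v, L v × L v × L v), OnL s a b P →
    ∃ ε : ℝ, 0 < ε ∧ ∀ η : ℝ, 0 < η → ∃ ζ : ℝ, 0 < ζ ∧ ∀ v, ∀ q q' : L v × L v × L v,
      FF (ex (s v) a) (ex (s v) b) q.1 ![1, q.2.1] ![1, q.2.2] = 0 →
      FF (ex (s v) a) (ex (s v) b) q'.1 ![1, q'.2.1] ![1, q'.2.2] = 0 →
      (‖q.1 - (P v).1‖ < ε ∧ ‖q.2.1 - (P v).2.1‖ < ε ∧ ‖q.2.2 - (P v).2.2‖ < ε) →
      (‖q'.1 - (P v).1‖ < ε ∧ ‖q'.2.1 - (P v).2.1‖ < ε ∧ ‖q'.2.2 - (P v).2.2‖ < ε) →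
      ‖q.2.1 - q'.2.1‖ < ζ → ‖q.2.2 - q'.2.2‖ < ζ → ‖q.1 - q'.1‖ < η

/-- MVI: moves at a local point where the difference of `P` and `T` has infinite order. -/
def S_MVI : Prop :=
  ∀ (K : Type) [Field K] [CharZero K] (V : Type) [Finite V] (L : V → Type)
    [∀ v, NontriviallyNormedField (L v)] [∀ v, CompleteSpace (L v)] [∀ v, CharZero (L v)]
    (s : ∀ v, K →+* L v), HWR s → ∀ (a : Fin 3 → Fin 3 → K) (b : Fin 4 → Fin 4 → K)
    (R : K × K × K → Prop), Cld a b R → ∀ P : ∀ v, L v × L v × L v, OnL s a b P →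
      (∀ v, (qt (ax (ex (s v) a) ![1, (P v).2.2]) (bx (ex (s v) b) ![1, (P v).2.2]) (P v).1
        (P v).2.1).1 ≠ 0 ∧
        IOt (qt (ax (ex (s v) a) ![1, (P v).2.2]) (bx (ex (s v) b) ![1, (P v).2.2]) (P v).1
          (P v).2.1)) → Mve s R P

/-- VIA: moves in the direction `y` through another point. -/
def S_VIA : Prop :=
  ∀ (K : Type) [Field K] [CharZero K] (V : Type) [Finite V] (L : V → Type)
    [∀ v, NontriviallyNormedField (L v)] (s : ∀ v, K →+* L v) (a : Fin 3 → Fin 3 → K)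
    (b : Fin 4 → Fin 4 → K) (R : K × K × K → Prop),
    (∀ z, R z → FF a b z.1 ![1, z.2.1] ![1, z.2.2] = 0) → ∀ P : ∀ v, L v × L v × L v,
      OnL s a b P → Mva s R P →
      (∀ δ : ℝ, 0 < δ → ∃ P' : ∀ v, L v × L v × L v, OnL s a b P' ∧
        (∀ v, ‖(P' v).1 - (P v).1‖ < δ ∧ ‖(P' v).2.1 - (P v).2.1‖ < δ ∧ (P' v).2.2 = (P v).2.2) ∧
        Mvb s R P') → Mvb s R P

/-- DNS: moves in both directions. -/
def S_DNS : Prop :=
  ∀ (K : Type) [Field K] [CharZero K] (V : Type) [Finite V] (L : V → Type)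
    [∀ v, NontriviallyNormedField (L v)] (s : ∀ v, K →+* L v) (a : Fin 3 → Fin 3 → K)
    (b : Fin 4 → Fin 4 → K) (R : K × K × K → Prop),
    (∀ z, R z → FF a b z.1 ![1, z.2.1] ![1, z.2.2] = 0) → ∀ P : ∀ v, L v × L v × L v,
      OnL s a b P → Mva s R P → Mvb s R P → (∀ ε : ℝ, 0 < ε → ∃ z, R z ∧ Nr s ε z P) →
      ∃ ε : ℝ, 0 < ε ∧ ∀ q : ∀ v, L v × L v × L v, OnL s a b q →
        (∀ v, ‖(q v).1 - (P v).1‖ < ε ∧ ‖(q v).2.1 - (P v).2.1‖ < ε ∧
          ‖(q v).2.2 - (P v).2.2‖ < ε) → ∀ η : ℝ, 0 < η → ∃ z, R z ∧ Nr s η z q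

end Pool.Agent.H66.ZK
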