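import Pool.Agent.H66.ZK.Defs
import Pool.Agent.H66.ZK.Nea

/-!
# Project ZK: statements of the parts on the projective surface (helper66)
-/

set_option autoImplicit false

open Pool.Agent.Y720.MZ Pool.Agent.Q35.TT Pool.Agent.Q149.TT Pool.Agent.Q35.ZC Pool.Agent.H66.TK

namespace Pool.Agent.H66.ZK

/-- The coordinates of the point `(w, x, y)`, where the coordinates of `x` (if `e₁`) and of `y` (if
`e₂`) are exchanged. -/
def p5 {E : Type} (e₁ e₂ : Bool) (w : E) (x y : Fin 2 → E) : Fin 5 → E :=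
  ![w, sw e₁ x 0, sw e₁ x 1, sw e₂ y 0, sw e₂ y 1]

/-- DGN: from the affine surface to the projective one, for any finite set of places. -/
def S_DGN : Prop :=
  ∀ (K : Type) [Field K] [CharZero K] (a : Fin 3 → Fin 3 → K) (b : Fin 4 → Fin 4 → K) (V : Type)
    [Finite V] (L : V → Type) [∀ v, NontriviallyNormedField (L v)] (s : ∀ v, K →+* L v)
    (e₁ e₂ : Bool) (w t r l m : K), l ≠ 0 → m ≠ 0 →
    FF (chA e₁ e₂ a) (chA e₁ e₂ b) w ![1, t] ![1, r] = 0 →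
    Fw (chA e₁ e₂ a) w ![1, t] ![1, r] ≠ 0 → ∀ R : K × K × K → Prop,
    (∃ ε : ℝ, 0 < ε ∧ ∀ q : ∀ v, L v × L v × L v, OnL s (chA e₁ e₂ a) (chA e₁ e₂ b) q →
      (∀ v, ‖(q v).1 - s v w‖ < ε ∧ ‖(q v).2.1 - s v t‖ < ε ∧ ‖(q v).2.2 - s v r‖ < ε) →
      ∀ η : ℝ, 0 < η → ∃ z, R z ∧ Nr s η z q) →
    ∃ U ∈ nhds (fun v => (fun j => s v (scale l m (p5 e₁ e₂ w ![1, t] ![1, r]) j) : Fin 5 → L v)),
      ∀ S ∈ U, (∀ v, MvPolynomial.eval₂ (s v) (S v) (F a b) = 0) →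
        S ∈ closure {S | ∃ z : K × K × K, R z ∧
          ∀ v, S v ∈ coords (s v) (p5 e₁ e₂ z.1 ![1, z.2.1] ![1, z.2.2])}

/-- DRL: the real place separately. -/
def S_DRL : Prop :=
  ∀ (K : Type) [Field K] [CharZero K] (f : MvPolynomial (Fin 5) K) (R : Set (Fin 5 → K))
    (P : Fin 5 → K) (ι : Type) [Finite ι] (p : ι → ℕ) [∀ i, Fact (p i).Prime]
    (σ : ∀ i, K →+* ℚ_[p i]) (τ : K →+* ℝ),
    (∃ U ∈ nhds (fun v => (fun j => sv σ τ v (P j) : Fin 5 → Lv p v)),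
      ∀ S ∈ U, (∀ v, MvPolynomial.eval₂ (sv σ τ v) (S v) f = 0) →
        S ∈ closure {S | ∃ Q ∈ R, ∀ v, S v ∈ coords (sv σ τ v) Q}) → DenseReal f R P σ τ

/-- MPZ: extension of the base field. -/
def S_MPZ : Prop :=
  ∀ (k : Type) [Field k] [CharZero k] (f : MvPolynomial (Fin 5) k),
    (∀ z ∈ Rat f, z.mapDomain bar ∈ Rat (barF f)) ∧
    ∀ h, LineSection f h → LineSection (barF f) (h.mapDomain bar)

end Pool.Agent.H66.ZK
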